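import Pool.Agent.Helper79K9.EA.Defs
import Pool.Agent.H47R2.EA.BASIC

/-!
# Elementary facts on finite-volume Gibbs averages
-/

set_option autoImplicit false

namespace Pool.Agent.Helper79K9.EA

open Pool.H47EA hiding ham Zp gE IsGibbs
open Pool.H47EA.Basic hiding ham_diff Zp_pos Zp_congr gE_congr_out gE_congr gE_const gE_mono gE_lin
  gE_cons gE_cond gE_local

variable {d : ℕ}

/-- A family of finite-volume averages with the elementary properties of Gibbs averages. -/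
structure Sp (g : Finset (Site d) → (Site d → Bool) → ((Site d → Bool) → ℝ) → ℝ) : Prop where
  unit : ∀ (Λ : Finset (Site d)) (ω : Site d → Bool) (f : (Site d → Bool) → ℝ), Unit01 f →
      0 ≤ g Λ ω f ∧ g Λ ω f ≤ 1
  const : ∀ (Λ : Finset (Site d)) (ω : Site d → Bool) (c : ℝ), g Λ ω (fun _ => c) = c
  mono : ∀ (Λ : Finset (Site d)) (ω : Site d → Bool) (f f' : (Site d → Bool) → ℝ),
      (∀ η : Λ → Bool, f (glue Λ η ω) ≤ f' (glue Λ η ω)) → g Λ ω f ≤ g Λ ω f'
  lin : ∀ (Λ : Finset (Site d)) (ω : Site d → Bool) (f f' : (Site d → Bool) → ℝ) (c c' : ℝ),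
      g Λ ω (fun σ => c * f σ + c' * f' σ) = c * g Λ ω f + c' * g Λ ω f'
  cond : ∀ (Λ : Finset (Site d)) (ω : Site d → Bool), ∀ x ∈ Λ, ∀ f : (Site d → Bool) → ℝ,
      g Λ ω f = g Λ ω (ind x) * g (Λ.erase x) (Function.update ω x true) f
        + (1 - g Λ ω (ind x)) * g (Λ.erase x) (Function.update ω x false) f
  cons : ∀ (Λ : Finset (Site d)) (ω : Site d → Bool), ∀ Λ' ⊆ Λ, ∀ f : (Site d → Bool) → ℝ,
      g Λ ω f = g Λ ω (fun τ => g Λ' τ f)
  loc : ∀ (Λ : Finset (Site d)) (ω ω' : Site d → Bool) (f : (Site d → Bool) → ℝ),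
      (∀ y, y ∉ Λ → (∃ x ∈ Λ, (lat d).Adj x y) → ω y = ω' y) →
      (∀ η : Λ → Bool, f (glue Λ η ω) = f (glue Λ η ω')) →
      g Λ ω f = g Λ ω' f

variable (W : Sym2 (Site d) → ℝ) (h0 : Site d → ℝ)

theorem spin_mk (σ : Site d → Bool) (x y : Site d) : spin σ s(x, y) = sg (σ x) * sg (σ y) := rfl

theorem ham_diff {Λ' Λ : Finset (Site d)} (h : Λ' ⊆ Λ) (σ σ' : Site d → Bool)
    (hs : ∀ z, z ∉ Λ' → σ z = σ' z) :
    ham W h0 Λ σ - ham W h0 Λ' σ = ham W h0 Λ σ' - ham W h0 Λ' σ' := by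
  unfold ham
  have h1 := Finset.sum_sdiff (f := fun e => W e * spin σ e) (edgesOf_mono h)
  have h2 := Finset.sum_sdiff (f := fun e => W e * spin σ' e) (edgesOf_mono h)
  have h3 : ∑ e ∈ edgesOf Λ \ edgesOf Λ', W e * spin σ e =
      ∑ e ∈ edgesOf Λ \ edgesOf Λ', W e * spin σ' e := by
    apply Finset.sum_congr rfl
    intro e he
    rw [Finset.mem_sdiff] at he
    obtain ⟨x, hx, y, hy, rfl⟩ := mem_edgesOf.mp he.1
    have hx' : x ∉ Λ' := by
      intro hx'
      exact he.2 (mem_edgesOf.mpr ⟨x, hx', y, hy, rfl⟩)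
    have hy' : y ∉ Λ' := by
      intro hy'
      exact he.2 (mem_edgesOf.mpr ⟨y, hy', x, by rw [Basic.dist1_comm]; exact hy, Sym2.eq_swap⟩)
    rw [spin_mk, spin_mk, hs x hx', hs y hy']
  have h4 := Finset.sum_sdiff (f := fun x => h0 x * sg (σ x)) h
  have h5 := Finset.sum_sdiff (f := fun x => h0 x * sg (σ' x)) h
  have h6 : ∑ x ∈ Λ \ Λ', h0 x * sg (σ x) = ∑ x ∈ Λ \ Λ', h0 x * sg (σ' x) := by
    apply Finset.sum_congr rfl
    intro x hx
    rw [hs x (Finset.mem_sdiff.1 hx).2]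
  linarith

theorem Zp_pos (Λ : Finset (Site d)) (ω : Site d → Bool) : 0 < Zp W h0 Λ ω := by
  unfold Zp
  exact Finset.sum_pos (fun η _ => Real.exp_pos _) Finset.univ_nonempty

theorem Zp_congr (Λ : Finset (Site d)) (ω ω' : Site d → Bool)
    (h : ∀ z, z ∉ Λ → ω z = ω' z) : Zp W h0 Λ ω = Zp W h0 Λ ω' := by
  unfold Zp
  apply Finset.sum_congr rfl
  intro η _
  rw [glue_congr η ω ω' h]

theorem gE_congr_out (Λ : Finset (Site d)) (ω ω' : Site d → Bool)
    (f : (Site d → Bool) → ℝ) (h : ∀ z, z ∉ Λ → ω z = ω' z) : gE W h0 Λ ω f = gE W h0 Λ ω' f := by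
  unfold gE
  rw [Zp_congr W h0 Λ ω ω' h]
  congr 1
  apply Finset.sum_congr rfl
  intro η _
  rw [glue_congr η ω ω' h]

theorem gE_congr (Λ : Finset (Site d)) (ω : Site d → Bool)
    (f f' : (Site d → Bool) → ℝ) (h : ∀ η : Λ → Bool, f (glue Λ η ω) = f' (glue Λ η ω)) :
    gE W h0 Λ ω f = gE W h0 Λ ω f' := by
  unfold gE
  congr 1
  apply Finset.sum_congr rfl
  intro η _
  rw [h η]

theorem gE_const (Λ : Finset (Site d)) (ω : Site d → Bool) (c : ℝ) :
    gE W h0 Λ ω (fun _ => c) = c := by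
  unfold gE
  rw [← Finset.sum_mul]
  exact mul_div_cancel_left₀ c (Zp_pos W h0 Λ ω).ne'

theorem gE_mono (Λ : Finset (Site d)) (ω : Site d → Bool)
    (f f' : (Site d → Bool) → ℝ) (h : ∀ η : Λ → Bool, f (glue Λ η ω) ≤ f' (glue Λ η ω)) :
    gE W h0 Λ ω f ≤ gE W h0 Λ ω f' := by
  unfold gE
  apply div_le_div_of_nonneg_right _ (Zp_pos W h0 Λ ω).le
  apply Finset.sum_le_sum
  intro η _
  exact mul_le_mul_of_nonneg_left (h η) (Real.exp_pos _).le

theorem gE_lin (Λ : Finset (Site d)) (ω : Site d → Bool)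
    (f f' : (Site d → Bool) → ℝ) (c c' : ℝ) :
    gE W h0 Λ ω (fun σ => c * f σ + c' * f' σ) = c * gE W h0 Λ ω f + c' * gE W h0 Λ ω f' := by
  unfold gE
  rw [← mul_div_assoc, ← mul_div_assoc, ← add_div, Finset.mul_sum, Finset.mul_sum,
    ← Finset.sum_add_distrib]
  congr 1
  apply Finset.sum_congr rfl
  intro η _
  ring

theorem gE_cons {Λ Λ' : Finset (Site d)} (hsub : Λ' ⊆ Λ) (ω : Site d → Bool)
    (f : (Site d → Bool) → ℝ) :
    gE W h0 Λ ω f = gE W h0 Λ ω (fun τ => gE W h0 Λ' τ f) := by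
  have key : ∑ η : Λ → Bool, Real.exp (ham W h0 Λ (glue Λ η ω)) * f (glue Λ η ω) =
      ∑ η : Λ → Bool, Real.exp (ham W h0 Λ (glue Λ η ω)) * gE W h0 Λ' (glue Λ η ω) f := by
    symm
    let H : (Λ → Bool) × (Λ' → Bool) → ℝ := fun p =>
      Real.exp (ham W h0 Λ (glue Λ p.1 ω)) *
        (Real.exp (ham W h0 Λ' (glue Λ' p.2 (glue Λ p.1 ω))) * f (glue Λ' p.2 (glue Λ p.1 ω))) /
          Zp W h0 Λ' (glue Λ p.1 ω)
    have h1 : ∑ η : Λ → Bool, Real.exp (ham W h0 Λ (glue Λ η ω)) * gE W h0 Λ' (glue Λ η ω) f =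
        ∑ p : (Λ → Bool) × (Λ' → Bool), H p := by
      rw [Fintype.sum_prod_type]
      apply Finset.sum_congr rfl
      intro η _
      show Real.exp (ham W h0 Λ (glue Λ η ω)) * ((∑ η' : Λ' → Bool, _) / _) = _
      rw [← mul_div_assoc, Finset.mul_sum, Finset.sum_div]
    rw [h1, ← Equiv.sum_comp (sw hsub) H, Fintype.sum_prod_type]
    apply Finset.sum_congr rfl
    intro η _
    have h2 : ∀ η' : Λ' → Bool, H (sw hsub (η, η')) =
        Real.exp (ham W h0 Λ (glue Λ η ω)) * f (glue Λ η ω) / Zp W h0 Λ' (glue Λ η ω) *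
          Real.exp (ham W h0 Λ' (glue Λ' η' (glue Λ η ω))) := by
      intro η'
      show Real.exp (ham W h0 Λ (glue Λ (md η η') ω)) *
        (Real.exp (ham W h0 Λ' (glue Λ' (rs hsub η) (glue Λ (md η η') ω))) *
          f (glue Λ' (rs hsub η) (glue Λ (md η η') ω))) /
          Zp W h0 Λ' (glue Λ (md η η') ω) = _
      rw [glue_rs, glue_md hsub]
      have ho : ∀ z, z ∉ Λ' → glue Λ' η' (glue Λ η ω) z = glue Λ η ω z :=
        fun z hz => glue_not_mem _ _ hz
      rw [Zp_congr W h0 Λ' _ _ ho]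
      have h3 := ham_diff W h0 hsub _ _ ho
      have h4 : Real.exp (ham W h0 Λ (glue Λ' η' (glue Λ η ω))) *
          Real.exp (ham W h0 Λ' (glue Λ η ω)) =
          Real.exp (ham W h0 Λ (glue Λ η ω)) *
            Real.exp (ham W h0 Λ' (glue Λ' η' (glue Λ η ω))) := by
        rw [← Real.exp_add, ← Real.exp_add]
        congr 1
        linear_combination h3
      rw [← mul_assoc, h4]
      ring
    rw [Finset.sum_congr rfl (fun η' _ => h2 η'), ← Finset.mul_sum]
    exact div_mul_cancel₀ _ (Zp_pos W h0 Λ' _).ne'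
  show (∑ η : Λ → Bool, _) / _ = (∑ η : Λ → Bool, _) / _
  rw [key]

theorem gE_cond (Λ : Finset (Site d)) (ω : Site d → Bool) (x : Site d)
    (hx : x ∈ Λ) (f : (Site d → Bool) → ℝ) :
    gE W h0 Λ ω f = gE W h0 Λ ω (ind x) * gE W h0 (Λ.erase x) (Function.update ω x true) f
        + (1 - gE W h0 Λ ω (ind x)) * gE W h0 (Λ.erase x) (Function.update ω x false) f := by
  rw [gE_cons W h0 (Finset.erase_subset x Λ) ω f]
  set T := gE W h0 (Λ.erase x) (Function.update ω x true) f with hT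
  set F := gE W h0 (Λ.erase x) (Function.update ω x false) f with hF
  have h1 : gE W h0 Λ ω (fun τ => gE W h0 (Λ.erase x) τ f) =
      gE W h0 Λ ω (fun σ => (T - F) * ind x σ + F * (fun _ => 1) σ) := by
    apply gE_congr
    intro η
    have h2 : gE W h0 (Λ.erase x) (glue Λ η ω) f =
        gE W h0 (Λ.erase x) (Function.update ω x (glue Λ η ω x)) f := by
      apply gE_congr_out
      intro z hz
      by_cases hzx : z = x
      · rw [hzx, Function.update_self]
      · rw [Function.update_of_ne hzx]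
        apply glue_not_mem
        intro h
        exact hz (Finset.mem_erase.mpr ⟨hzx, h⟩)
    rw [h2]
    unfold ind
    cases hs : glue Λ η ω x with
    | true =>
      rw [← hT]
      simp
    | false =>
      rw [← hF]
      simp
  rw [h1, gE_lin, gE_const]
  ring

theorem gE_local (Λ : Finset (Site d)) (ω ω' : Site d → Bool)
    (f : (Site d → Bool) → ℝ)
    (h : ∀ y, y ∉ Λ → (∃ x ∈ Λ, (lat d).Adj x y) → ω y = ω' y)
    (hf : ∀ η : Λ → Bool, f (glue Λ η ω) = f (glue Λ η ω')) :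
    gE W h0 Λ ω f = gE W h0 Λ ω' f := by
  have hh : ∀ η : Λ → Bool, ham W h0 Λ (glue Λ η ω) = ham W h0 Λ (glue Λ η ω') := by
    intro η
    unfold ham
    congr 1
    · apply Finset.sum_congr rfl
      intro e he
      obtain ⟨x, hx, y, hy, rfl⟩ := mem_edgesOf.mp he
      rw [spin_mk, spin_mk, glue_mem _ _ hx, glue_mem _ _ hx]
      by_cases hyΛ : y ∈ Λ
      · rw [glue_mem _ _ hyΛ, glue_mem _ _ hyΛ]
      · rw [glue_not_mem _ _ hyΛ, glue_not_mem _ _ hyΛ, h y hyΛ ⟨x, hx, hy⟩]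
    · apply Finset.sum_congr rfl
      intro x hx
      rw [glue_mem _ _ hx, glue_mem _ _ hx]
  unfold gE Zp
  rw [Finset.sum_congr rfl (fun η _ => show Real.exp (ham W h0 Λ (glue Λ η ω)) =
      Real.exp (ham W h0 Λ (glue Λ η ω')) by rw [hh η]),
    Finset.sum_congr rfl (fun η _ => show Real.exp (ham W h0 Λ (glue Λ η ω)) * f (glue Λ η ω) =
      Real.exp (ham W h0 Λ (glue Λ η ω')) * f (glue Λ η ω') by rw [hh η, hf η])]

theorem sp : Sp (gE W h0) where
  unit Λ ω f hf := by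
    constructor
    · have h1 := gE_mono W h0 Λ ω (fun _ => 0) f (fun η => (hf _).1)
      rw [gE_const] at h1
      exact h1
    · have h1 := gE_mono W h0 Λ ω f (fun _ => 1) (fun η => (hf _).2)
      rw [gE_const] at h1
      exact h1
  const := gE_const W h0
  mono := gE_mono W h0
  lin := gE_lin W h0
  cond Λ ω x hx f := gE_cond W h0 Λ ω x hx f
  cons Λ ω Λ' h f := gE_cons W h0 h ω f
  loc := gE_local W h0

end Pool.Agent.Helper79K9.EA
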