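import Pool.Agent.Helper79K9.EA.Expl
import Pool.Agent.H613R2.EA.CHAIN

/-!
# The random prefactor
-/

set_option autoImplicit false

open MeasureTheory ProbabilityTheory
open scoped ENNReal

namespace Pool.Agent.Helper79K9.EA

open Pool.H47EA hiding ham Zp gE IsGibbs

variable {d : ℕ}

open Classical in
/-- total weight of the chains which end near `x`, with a factor 80 for each site -/
noncomputable def SK (R : ℕ) (Bad : Site d → Set (Coupling d)) (ε : ℝ≥0∞) (x : Site d)
    (J : Coupling d) : ℝ≥0∞ :=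
  ∑' l : List (Site d), if IsCh (2 * R) {x} l then
    80 ^ l.length * (l.map (chainP Bad ε J)).prod else 0

variable {R : ℕ} {Bad : Site d → Set (Coupling d)} {b ε : ℝ≥0∞}

theorem meas_term
    (h1 : ∀ x (J J' : Coupling d), (∀ e : (lat d).edgeSet, (∀ v ∈ e.1, v ∈ ball x R) → J e = J' e) →
      (J ∈ Bad x ↔ J' ∈ Bad x)) (l : List (Site d)) :
    Measurable (fun J => (l.map (chainP Bad ε J)).prod) :=
  chain_meas (chainFF R l) _ (fun J J' h => chain_Pl_dep h1 l J J' h)

open Classical in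
theorem meas_SK
    (h1 : ∀ x (J J' : Coupling d), (∀ e : (lat d).edgeSet, (∀ v ∈ e.1, v ∈ ball x R) → J e = J' e) →
      (J ∈ Bad x ↔ J' ∈ Bad x)) (x : Site d) : Measurable (SK R Bad ε x) := by
  unfold SK
  refine Measurable.tsum fun l => ?_
  by_cases hl : IsCh (2 * R) {x} l
  · simp only [if_pos hl]
    exact measurable_const.mul (meas_term h1 l)
  · simp only [if_neg hl]
    exact measurable_const

open Classical in
theorem SK_int (N : ℕ)
    (h1 : ∀ x (J J' : Coupling d), (∀ e : (lat d).edgeSet, (∀ v ∈ e.1, v ∈ ball x R) → J e = J' e) →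
      (J ∈ Bad x ↔ J' ∈ Bad x)) (h2 : ∀ x, couplingLaw d (Bad x) ≤ b)
    (h3 : ∀ x : Site d, (ball x (2 * R + 1)).card ≤ N)
    (h4 : (N : ℝ≥0∞) * (80 * (ε + b)) ≤ 2⁻¹) (x : Site d) :
    ∫⁻ J, SK R Bad ε x J ∂(couplingLaw d) ≤ 2 := by
  have hmeas : ∀ l, Measurable (fun J : Coupling d => if IsCh (2 * R) {x} l then
      80 ^ l.length * (l.map (chainP Bad ε J)).prod else 0) := by
    intro l
    by_cases hl : IsCh (2 * R) {x} l
    · simp only [if_pos hl]
      exact measurable_const.mul (meas_term h1 l)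
    · simp only [if_neg hl]
      exact measurable_const
  unfold SK
  rw [lintegral_tsum (fun l => (hmeas l).aemeasurable)]
  have h5 := chain_sum_bound (2 * R) N h3 ({x} : Finset (Site d)) (80 * (ε + b)) h4
    (fun l => ∫⁻ J, (if IsCh (2 * R) {x} l then
      80 ^ l.length * (l.map (chainP Bad ε J)).prod else 0) ∂(couplingLaw d))
    (fun l hl => ?_) (fun l hl => ?_)
  · simpa using h5
  · simp only [if_pos hl]
    rw [lintegral_const_mul _ (meas_term h1 l), mul_pow]
    gcongr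
    exact chain_lint_Pl h1 h2 l (chain_pairwise _ _ l hl)
  · simp only [if_neg hl, lintegral_zero]

theorem isCh_single (R' : ℕ) (A : Finset (Site d)) : ∀ l : List (Site d), IsCh R' A l →
    ∃ a ∈ A, IsCh R' {a} l
  | [], h => h.elim
  | [x], h => by
    obtain ⟨a, ha, hax⟩ := h
    exact ⟨a, ha, a, Finset.mem_singleton_self a, hax⟩
  | (x :: y :: l), h => by
    obtain ⟨h1, h2, h3⟩ := h
    obtain ⟨a, ha, h4⟩ := isCh_single R' A (y :: l) h3
    exact ⟨a, ha, h1, h2, h4⟩

open Classical in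
theorem chSum_le (A : Finset (Site d)) (J : Coupling d) (n : ℕ) :
    chSum (2 * R) A (fun x => if J ∈ Bad x then 1 else ε) n * 80 ^ n ≤
      ∑ a ∈ A, SK R Bad ε a J := by
  unfold chSum SK
  rw [← ENNReal.tsum_mul_right, ← Summable.tsum_finsetSum (fun a _ => ENNReal.summable)]
  refine ENNReal.tsum_le_tsum fun l => ?_
  by_cases hl : IsCh (2 * R) A l ∧ n ≤ l.length
  · rw [if_pos hl]
    obtain ⟨a, ha, hal⟩ := isCh_single (2 * R) A l hl.1
    refine le_trans ?_ (Finset.single_le_sum (f := fun a => if IsCh (2 * R) {a} l then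
      (80 : ℝ≥0∞) ^ l.length * (l.map (chainP Bad ε J)).prod else 0) (fun _ _ => zero_le) ha)
    simp only [if_pos hal]
    rw [mul_comm]
    have h1 : (80 : ℝ≥0∞) ^ n ≤ 80 ^ l.length := pow_le_pow_right₀ (by norm_num) hl.2
    have h2 : (l.map fun x => if J ∈ Bad x then (1 : ℝ≥0∞) else ε) = l.map (chainP Bad ε J) := rfl
    rw [h2]
    gcongr
  · rw [if_neg hl, zero_mul]
    exact zero_le

/-- the prefactor of the decay -/
noncomputable def KK0 (R : ℕ) (Bad : Site d → Set (Coupling d)) (ε : ℝ≥0∞) (x : Site d)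
    (J : Coupling d) : ℝ := 6400 * (1 + (SK R Bad ε x J).toReal)

theorem KK0_nonneg (x : Site d) (J : Coupling d) : 0 ≤ KK0 R Bad ε x J := by
  unfold KK0
  positivity

theorem KK0_int (N : ℕ)
    (h1 : ∀ x (J J' : Coupling d), (∀ e : (lat d).edgeSet, (∀ v ∈ e.1, v ∈ ball x R) → J e = J' e) →
      (J ∈ Bad x ↔ J' ∈ Bad x)) (h2 : ∀ x, couplingLaw d (Bad x) ≤ b)
    (h3 : ∀ x : Site d, (ball x (2 * R + 1)).card ≤ N)
    (h4 : (N : ℝ≥0∞) * (80 * (ε + b)) ≤ 2⁻¹) (x : Site d) :
    Integrable (KK0 R Bad ε x) (couplingLaw d) ∧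
      ∫ J, KK0 R Bad ε x J ∂(couplingLaw d) ≤ 20000 := by
  have h5 := SK_int N h1 h2 h3 h4 x
  have hm := (meas_SK (ε := ε) h1 x).aemeasurable (μ := couplingLaw d)
  have h6 : Integrable (fun J => (SK R Bad ε x J).toReal) (couplingLaw d) :=
    integrable_toReal_of_lintegral_ne_top hm (ne_top_of_le_ne_top (by simp) h5)
  have hfin := ae_lt_top' hm (ne_top_of_le_ne_top (by simp) h5)
  have h7 : ∫ J, (SK R Bad ε x J).toReal ∂(couplingLaw d) ≤ 2 := by
    rw [integral_toReal hm hfin]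
    exact ENNReal.toReal_le_of_le_ofReal (by norm_num) (by simpa using h5)
  unfold KK0
  refine ⟨((integrable_const 1).add h6).const_mul 6400, ?_⟩
  rw [integral_const_mul, integral_add (integrable_const 1) h6]
  simp only [integral_const, probReal_univ, smul_eq_mul, mul_one]
  linarith

theorem exp_33 : Real.exp (33 / 8) ≤ 80 := by
  have h1 : Real.exp (33 / 8) ^ 8 ≤ 80 ^ 8 := by
    rw [← Real.exp_nat_mul]
    have e : ((8 : ℕ) : ℝ) * (33 / 8) = ((33 : ℕ) : ℝ) * 1 := by norm_num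
    rw [e, Real.exp_nat_mul]
    have h := Real.exp_one_lt_d9
    calc Real.exp 1 ^ 33 ≤ 2.7182818286 ^ 33 := by
          apply pow_le_pow_left₀ (Real.exp_pos _).le h.le
      _ ≤ 80 ^ 8 := by norm_num
  exact le_of_pow_le_pow_left₀ (by norm_num) (by norm_num) h1

/-- exponential decay of the influence of the boundary condition -/
theorem decay {g : Finset (Site d) → (Site d → Bool) → ((Site d → Bool) → ℝ) → ℝ} (hb : Sp g)
    (hd : 1 ≤ d) (hR : R = 16 * d) (J : Coupling d) (p : Site d → ℝ)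
    (hp : ∀ (x : Site d) (Λ : Finset (Site d)), x ∈ Λ → ∀ ω ω' : Site d → Bool,
      (∀ y ∈ ball x R, y ∉ Λ → ω y = ω' y) →
      |g Λ ω (ind x) - g Λ ω' (ind x)| ≤ p x)
    (hpe : ∀ x, ENNReal.ofReal (p x) = chainP Bad ε J x)
    (hfin : ∀ x, SK R Bad ε x J ≠ ∞)
    (A : Finset (Site d)) (f : (Site d → Bool) → ℝ) (hf : Unit01 f) (hfA : LocalOn A f)
    (Λ : Finset (Site d)) (n : ℕ) (ω ω' : Site d → Bool)
    (hA : ∀ a ∈ A, ∀ y, y ∉ Λ → ω y ≠ ω' y → n ≤ dist1 a y) :
    |g Λ ω f - g Λ ω' f| ≤ (∑ a ∈ A, KK0 R Bad ε a J) * Real.exp (-((n : ℝ) / (8 * d))) := by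
  classical
  have hd0 : (0 : ℝ) < d := by exact_mod_cast hd
  rcases A.eq_empty_or_nonempty with hAe | hAne
  · subst hAe
    have hc : f = fun _ => f ω := by
      funext σ
      exact hfA _ _ (by simp)
    rw [hc, hb.const, hb.const]
    simp
  have hsum : ∑ a ∈ A, KK0 R Bad ε a J = 6400 * (A.card + ∑ a ∈ A, (SK R Bad ε a J).toReal) := by
    unfold KK0
    rw [← Finset.mul_sum, Finset.sum_add_distrib]
    simp
  have hcard : (1 : ℝ) ≤ A.card := by exact_mod_cast hAne.card_pos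
  have hS0 : 0 ≤ ∑ a ∈ A, (SK R Bad ε a J).toReal :=
    Finset.sum_nonneg fun _ _ => ENNReal.toReal_nonneg
  rw [hsum]
  set X := ∑ a ∈ A, (SK R Bad ε a J).toReal with hX
  set q := n / (2 * R + 1) with hq
  have hn : n < (q + 1) * (2 * R + 1) := by
    rw [hq]
    have := Nat.lt_div_mul_add (a := n) (b := 2 * R + 1) (by omega)
    rw [add_mul, one_mul]
    exact this
  have hn' : (n : ℝ) ≤ (q + 1) * (33 * d) := by
    have h1 : (n : ℝ) ≤ ((q + 1) * (2 * R + 1) : ℕ) := by exact_mod_cast hn.le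
    refine h1.trans ?_
    push_cast
    have h2 : (2 * (R : ℝ) + 1) ≤ 33 * d := by
      have : 2 * R + 1 ≤ 33 * d := by omega
      exact_mod_cast this
    gcongr
  have hexp : (1 / 80 : ℝ) ^ (q + 1) ≤ Real.exp (-((n : ℝ) / (8 * d))) := by
    have h3 : (n : ℝ) / (8 * d) ≤ (q + 1) * (33 / 8) := by
      rw [div_le_iff₀ (by positivity)]
      calc (n : ℝ) ≤ (q + 1) * (33 * d) := hn'
        _ = (q + 1) * (33 / 8) * (8 * d) := by ring
    have h4 : (1 / 80 : ℝ) ≤ Real.exp (-(33 / 8)) := by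
      rw [Real.exp_neg, one_div]
      exact inv_anti₀ (Real.exp_pos _) exp_33
    calc (1 / 80 : ℝ) ^ (q + 1) ≤ Real.exp (-(33 / 8)) ^ (q + 1) :=
          pow_le_pow_left₀ (by norm_num) h4 _
      _ = Real.exp (-((q + 1) * (33 / 8))) := by
          rw [← Real.exp_nat_mul]
          congr 1
          push_cast
          ring
      _ ≤ _ := by
          apply Real.exp_le_exp.2
          linarith
  rcases Nat.eq_zero_or_pos q with hq0 | hqpos
  · have h1 : |g Λ ω f - g Λ ω' f| ≤ 1 := by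
      have u1 := hb.unit Λ ω f hf
      have u2 := hb.unit Λ ω' f hf
      rw [abs_le]
      constructor <;> linarith [u1.1, u1.2, u2.1, u2.2]
    rw [hq0, zero_add, pow_one] at hexp
    calc |g Λ ω f - g Λ ω' f| ≤ 1 := h1
      _ ≤ 6400 * (1 + 0) * (1 / 80) := by norm_num
      _ ≤ 6400 * (A.card + X) * Real.exp (-((n : ℝ) / (8 * d))) := by gcongr
  · obtain ⟨k, hk⟩ : ∃ k, q = k + 1 := ⟨q - 1, by omega⟩
    have hkn : (k + 1) * (2 * R + 1) ≤ n := by
      rw [← hk, hq]
      exact Nat.div_mul_le_self n _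
    have h1 := expl hb R (2 * R) (by omega) p hp A f hf hfA Λ k ω ω'
      (fun a ha y hy hne => hkn.trans (hA a ha y hy hne))
    have hpe' : (fun x => ENNReal.ofReal (p x)) = fun x => if J ∈ Bad x then 1 else ε := by
      funext x
      rw [hpe x]
      rfl
    rw [hpe'] at h1
    have h2 := chSum_le (R := R) (Bad := Bad) (ε := ε) A J k
    have h3 : ENNReal.ofReal |g Λ ω f - g Λ ω' f| * 80 ^ k ≤ ∑ a ∈ A, SK R Bad ε a J :=
      (mul_le_mul_left h1 _).trans h2
    have h4 : |g Λ ω f - g Λ ω' f| * 80 ^ k ≤ X := by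
      have h5 := ENNReal.toReal_mono (ENNReal.sum_ne_top.2 fun a _ => hfin a) h3
      rw [ENNReal.toReal_mul, ENNReal.toReal_ofReal (abs_nonneg _), ENNReal.toReal_pow,
        ENNReal.toReal_sum (fun a _ => hfin a)] at h5
      simpa using h5
    have h80 : (0 : ℝ) < 80 ^ k := by positivity
    calc |g Λ ω f - g Λ ω' f| ≤ X / 80 ^ k := by rwa [le_div_iff₀ h80]
      _ = 6400 * X * (1 / 80) ^ (q + 1) := by
          have e : (1 / 80 : ℝ) ^ (k + 1 + 1) = 1 / 6400 * (80 ^ k)⁻¹ := by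
            rw [pow_succ, pow_succ, one_div, inv_pow]
            ring
          rw [hk, e]
          ring
      _ ≤ 6400 * (A.card + X) * Real.exp (-((n : ℝ) / (8 * d))) := by
          gcongr
          linarith

end Pool.Agent.Helper79K9.EA
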