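import Pool.Agent.H47R2.EA.St

/-!
# The Edwards–Anderson model with magnitudes, site weights and external fields: definitions
-/

set_option autoImplicit false

open MeasureTheory

namespace Pool.Agent.Helper79K9.EA

open Pool.H47EA

variable {d : ℕ}

/-- `σ_x σ_y` for the pair `e = ⟨x, y⟩`. -/
noncomputable def spin (σ : Site d → Bool) : Sym2 (Site d) → ℝ :=
  Sym2.lift ⟨fun x y => sg (σ x) * sg (σ y), fun _ _ => mul_comm _ _⟩

/-- The coupling constant `β m_e J_e s_x s_y` of the edge `e = ⟨x, y⟩` (zero if `x`, `y` are not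
nearest neighbours): `β` inverse temperature, `m` magnitudes of the edges, `s` weights of the
sites, `J` signs of the edges. -/
noncomputable def cpl (β : ℝ) (m : Sym2 (Site d) → ℝ) (s : Site d → ℝ) (J : Coupling d) :
    Sym2 (Site d) → ℝ :=
  Sym2.lift ⟨fun x y => β * m s(x, y) * Jc J x y * s x * s y, fun x y => by
    show β * m s(x, y) * Jc J x y * s x * s y = β * m s(y, x) * Jc J y x * s y * s x
    rw [Jc_comm J x y, Sym2.eq_swap]
    ring⟩

/-- `∑_{e = ⟨x,y⟩ : {x,y} ∩ Λ ≠ ∅} W_e σ_x σ_y + ∑_{x ∈ Λ} h_x σ_x`. -/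
noncomputable def ham (W : Sym2 (Site d) → ℝ) (h : Site d → ℝ) (Λ : Finset (Site d))
    (σ : Site d → Bool) : ℝ :=
  ∑ e ∈ edgesOf Λ, W e * spin σ e + ∑ x ∈ Λ, h x * sg (σ x)

/-- Partition function in `Λ` with boundary condition `ω`. -/
noncomputable def Zp (W : Sym2 (Site d) → ℝ) (h : Site d → ℝ) (Λ : Finset (Site d))
    (ω : Site d → Bool) : ℝ :=
  ∑ η : Λ → Bool, Real.exp (ham W h Λ (glue Λ η ω))

/-- The expectation of `f` under the Gibbs measure in `Λ` with couplings `W`, external field `h` and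
boundary condition `ω`. -/
noncomputable def gE (W : Sym2 (Site d) → ℝ) (h : Site d → ℝ) (Λ : Finset (Site d))
    (ω : Site d → Bool) (f : (Site d → Bool) → ℝ) : ℝ :=
  (∑ η : Λ → Bool, Real.exp (ham W h Λ (glue Λ η ω)) * f (glue Λ η ω)) / Zp W h Λ ω

/-- Gibbs states: probability measures satisfying the DLR equations for all finite boxes
`Λ = {x : a ≤ x ≤ b}`. -/
def IsGibbs (W : Sym2 (Site d) → ℝ) (h : Site d → ℝ) (π : Measure (Site d → Bool)) : Prop :=
  IsProbabilityMeasure π ∧
    ∀ (a b : Site d) (A : Set (Site d → Bool)), MeasurableSet A →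
      (π A).toReal = ∫ ω, gE W h (Finset.Icc a b) ω (A.indicator fun _ => (1 : ℝ)) ∂π

end Pool.Agent.Helper79K9.EA
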