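import Pool.Agent.Helper79K9.EA.Basic
import Pool.Agent.H47R2.EA.EXPL

/-!
# The exploration inequality for a general specification
-/

set_option autoImplicit false

open scoped ENNReal

namespace Pool.Agent.Helper79K9.EA

open Pool.H47EA hiding ham Zp gE IsGibbs
open Pool.H47EA.ExplAux hiding case_two claim

variable {d : ℕ}

/-- no site of `U` at distance exactly `R' + 1` from `D`: no dependence on the boundary condition -/
theorem case_two {g : Finset (Site d) → (Site d → Bool) → ((Site d → Bool) → ℝ) → ℝ} (hb : Sp g) (R' : ℕ)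
    (A : Finset (Site d)) (f : (Site d → Bool) → ℝ) (hfA : LocalOn A f)
    (U : Finset (Site d)) (D : Set (Site d)) (hA : ∀ a ∈ A, ∀ y ∈ D, R' + 1 ≤ dist1 a y)
    (ω ω' : Site d → Bool) (hω : ∀ y, y ∉ D → y ∉ U → ω y = ω' y)
    (hno : ¬ ∃ x ∈ U, (∀ y ∈ D, R' + 1 ≤ dist1 x y) ∧ ∃ y ∈ D, dist1 x y = R' + 1) :
    g U ω f = g U ω' f := by
  classical
  set U' : Finset (Site d) := U.filter (fun y => ∀ z ∈ D, R' + 1 ≤ dist1 y z) with hU'
  have hsub : U' ⊆ U := Finset.filter_subset _ _
  -- sites with all distances at least `R' + 1`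
  have hfar : ∀ y ∈ U', ∀ z ∈ D, R' + 2 ≤ dist1 y z := by
    intro y hy z hz
    rw [hU', Finset.mem_filter] at hy
    rcases Nat.lt_or_ge (dist1 y z) (R' + 2) with h | h
    · exact absurd ⟨y, hy.1, hy.2, z, hz, le_antisymm (by omega) (hy.2 z hz)⟩ hno
    · exact h
  have hnb : ∀ y, y ∉ U' → (∃ x ∈ U', (lat d).Adj x y) → y ∉ U ∧ y ∉ D := by
    rintro y hy ⟨x, hx, hxy⟩
    have hxy' : dist1 x y = 1 := hxy
    have h1 : ∀ z ∈ D, R' + 1 ≤ dist1 y z := by
      intro z hz
      have := hfar x hx z hz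
      have := dist_tri x y z
      omega
    refine ⟨fun hyU => hy (by rw [hU', Finset.mem_filter]; exact ⟨hyU, h1⟩), fun hyD => ?_⟩
    have := h1 y hyD
    rw [dist_self] at this
    omega
  have hAn : ∀ a ∈ A, a ∉ U' → a ∉ U ∧ a ∉ D := by
    intro a ha haU
    refine ⟨fun h => haU (by rw [hU', Finset.mem_filter]; exact ⟨h, hA a ha⟩), fun hyD => ?_⟩
    have := hA a ha a hyD
    rw [dist_self] at this
    omega
  -- one configuration
  have hone : ∀ (τ : Site d → Bool), g U τ f = g U' τ f := by
    intro τ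
    have b2 := hb.const U τ
    have b3 := hb.mono U τ
    have b6 := hb.cons U τ
    rw [b6 U' hsub f]
    have hconst : ∀ η : U → Bool, g U' (glue U η τ) f = g U' τ f := by
      intro η
      have b7 := hb.loc U' (glue U η τ)
      refine b7 τ f ?_ ?_
      · intro y hy hadj
        have := (hnb y hy hadj).1
        simp [glue, this]
      · intro η'
        refine hfA _ _ fun a ha => ?_
        by_cases haU : a ∈ U'
        · simp [glue, haU]
        · have := (hAn a ha haU).1
          simp [glue, haU, this]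
    apply le_antisymm
    · calc g U τ (fun τ' => g U' τ' f) ≤ g U τ (fun _ => g U' τ f) :=
            b3 _ _ fun η => (hconst η).le
        _ = g U' τ f := b2 _
    · calc g U' τ f = g U τ (fun _ => g U' τ f) := (b2 _).symm
        _ ≤ g U τ (fun τ' => g U' τ' f) := b3 _ _ fun η => (hconst η).ge
  rw [hone ω, hone ω']
  have b7 := hb.loc U' ω
  refine b7 ω' f ?_ ?_
  · intro y hy hadj
    obtain ⟨h1, h2⟩ := hnb y hy hadj
    exact hω y h2 h1
  · intro η
    refine hfA _ _ fun a ha => ?_
    by_cases haU : a ∈ U'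
    · simp [glue, haU]
    · obtain ⟨h1, h2⟩ := hAn a ha haU
      simp only [glue, haU, dif_neg, not_false_iff]
      exact hω a h2 h1

/-- the general claim -/
theorem claim {g : Finset (Site d) → (Site d → Bool) → ((Site d → Bool) → ℝ) → ℝ} (hb : Sp g) (R R' : ℕ) (hR : R ≤ R') (p : Site d → ℝ)
    (hp : ∀ (x : Site d) (Λ : Finset (Site d)), x ∈ Λ → ∀ ω ω' : Site d → Bool,
      (∀ y ∈ ball x R, y ∉ Λ → ω y = ω' y) →
      |g Λ ω (ind x) - g Λ ω' (ind x)| ≤ p x)
    (A : Finset (Site d)) (f : (Site d → Bool) → ℝ) (hf : Unit01 f) (hfA : LocalOn A f) :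
    ∀ (m : ℕ) (U : Finset (Site d)), U.card = m → ∀ (D : Set (Site d)), (∀ y ∈ D, y ∉ U) →
      (∀ a ∈ A, ∀ y ∈ D, R' + 1 ≤ dist1 a y) → ∀ ω ω' : Site d → Bool,
      (∀ y, y ∉ D → y ∉ U → ω y = ω' y) →
      ENNReal.ofReal |g U ω f - g U ω' f| ≤
        S R' A (fun x => ENNReal.ofReal (p x)) U D := by
  classical
  intro m
  induction m with
  | zero =>
    intro U hU D hD hA ω ω' hω
    have hno : ¬ ∃ x ∈ U, (∀ y ∈ D, R' + 1 ≤ dist1 x y) ∧ ∃ y ∈ D, dist1 x y = R' + 1 := by
      rw [Finset.card_eq_zero] at hU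
      simp [hU]
    rw [case_two hb R' A f hfA U D hA ω ω' hω hno]
    simp
  | succ m ih =>
    intro U hU D hD hA ω ω' hω
    by_cases hno : ∃ x ∈ U, (∀ y ∈ D, R' + 1 ≤ dist1 x y) ∧ ∃ y ∈ D, dist1 x y = R' + 1
    · obtain ⟨x, hx, hxD, hxD'⟩ := hno
      set P : Site d → ℝ≥0∞ := fun x => ENNReal.ofReal (p x) with hP
      have hcard : (U.erase x).card = m := by
        rw [Finset.card_erase_of_mem hx, hU]; rfl
      have b1 := hb.unit U ω
      have b5 := hb.cond U ω
      have b1' := hb.unit U ω'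
      have b5' := hb.cond U ω'
      have hind : Unit01 (ind (d := d) x) := by
        intro σ
        unfold ind
        split_ifs <;> norm_num
      set a := g U ω (ind x) with ha
      set a' := g U ω' (ind x) with ha'
      have ha01 : 0 ≤ a ∧ a ≤ 1 := b1 _ hind
      have ha01' : 0 ≤ a' ∧ a' ≤ 1 := b1' _ hind
      have hq : |a - a'| ≤ p x := by
        refine hp x U hx ω ω' fun y hy hyU => hω y (fun hyD => ?_) hyU
        have h1 := mem_ball_dist hy
        have h2 := hxD y hyD
        omega
      rw [b5 x hx f, b5' x hx f]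
      set F1 := g (U.erase x) (Function.update ω x true) f
      set F2 := g (U.erase x) (Function.update ω x false) f
      set G1 := g (U.erase x) (Function.update ω' x true) f
      set G2 := g (U.erase x) (Function.update ω' x false) f
      have hDU : ∀ y ∈ D, y ∉ U.erase x := fun y hy h => hD y hy (Finset.mem_of_mem_erase h)
      have hsame : ∀ s : Bool, ENNReal.ofReal |g (U.erase x) (Function.update ω x s) f -
          g (U.erase x) (Function.update ω' x s) f| ≤ S R' A P (U.erase x) D := by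
        intro s
        refine ih (U.erase x) hcard D hDU hA _ _ fun y hyD hyU => ?_
        by_cases hyx : y = x
        · subst hyx; simp
        · rw [Function.update_of_ne hyx, Function.update_of_ne hyx]
          exact hω y hyD fun h => hyU (Finset.mem_erase.2 ⟨hyx, h⟩)
      have hdiff : ∀ s s' : Bool, ENNReal.ofReal |g (U.erase x) (Function.update ω x s) f -
          g (U.erase x) (Function.update ω' x s') f| ≤
            S R' A P (U.erase x) D + Tx R' A P U D x := by
        intro s s'
        by_cases hnear : ∃ a ∈ A, dist1 a x ≤ R'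
        · refine le_trans ?_ (le_trans (one_le_Tx R' A P U D x hx hxD hxD' hnear) le_add_self)
          rw [← ENNReal.ofReal_one]
          apply ENNReal.ofReal_le_ofReal
          have c1 := hb.unit (U.erase x) (Function.update ω x s)
          have c1' := hb.unit (U.erase x) (Function.update ω' x s')
          have h1 := c1 f hf
          have h2 := c1' f hf
          rw [abs_le]
          constructor <;> linarith [h1.1, h1.2, h2.1, h2.2]
        · push Not at hnear
          refine le_trans ?_ (S_insert R' A P U D x hx hxD hxD')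
          refine ih (U.erase x) hcard (insert x D) ?_ ?_ _ _ ?_
          · intro y hy
            rcases hy with hy | hy
            · rw [hy]; exact Finset.notMem_erase x U
            · exact hDU y hy
          · intro a ha y hy
            rcases hy with hy | hy
            · rw [hy]; exact hnear a ha
            · exact hA a ha y hy
          · intro y hyD hyU
            have hyx : y ≠ x := fun h => hyD (by rw [h]; exact Set.mem_insert _ _)
            rw [Function.update_of_ne hyx, Function.update_of_ne hyx]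
            exact hω y (fun h => hyD (Set.mem_insert_of_mem _ h))
              fun h => hyU (Finset.mem_erase.2 ⟨hyx, h⟩)
      obtain ⟨b, c, hb0, hc0, hbc, hmix⟩ := mix a a' F1 F2 G1 G2 ha01 ha01'
      have hq0 : 0 ≤ |a - a'| := abs_nonneg _
      calc ENNReal.ofReal |(a * F1 + (1 - a) * F2) - (a' * G1 + (1 - a') * G2)|
          ≤ ENNReal.ofReal (b * |F1 - G1| + c * |F2 - G2| +
              |a - a'| * max |F1 - G2| |F2 - G1|) := ENNReal.ofReal_le_ofReal hmix
        _ = ENNReal.ofReal b * ENNReal.ofReal |F1 - G1| + ENNReal.ofReal c * ENNReal.ofReal |F2 - G2| +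
              ENNReal.ofReal |a - a'| * max (ENNReal.ofReal |F1 - G2|) (ENNReal.ofReal |F2 - G1|) := by
            rw [ENNReal.ofReal_add (by positivity) (by positivity),
              ENNReal.ofReal_add (by positivity) (by positivity), ENNReal.ofReal_mul hb0,
              ENNReal.ofReal_mul hc0, ENNReal.ofReal_mul hq0]
            congr 2
            exact (ENNReal.ofReal_mono.map_max)
        _ ≤ ENNReal.ofReal b * S R' A P (U.erase x) D + ENNReal.ofReal c * S R' A P (U.erase x) D +
              ENNReal.ofReal |a - a'| * (S R' A P (U.erase x) D + Tx R' A P U D x) := by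
            refine add_le_add (add_le_add ?_ ?_) ?_
            · exact mul_le_mul_right (hsame true) _
            · exact mul_le_mul_right (hsame false) _
            · exact mul_le_mul_right (max_le (hdiff true false) (hdiff false true)) _
        _ = (ENNReal.ofReal b + ENNReal.ofReal c + ENNReal.ofReal |a - a'|) *
              S R' A P (U.erase x) D + ENNReal.ofReal |a - a'| * Tx R' A P U D x := by ring
        _ = S R' A P (U.erase x) D + ENNReal.ofReal |a - a'| * Tx R' A P U D x := by
            rw [← ENNReal.ofReal_add hb0 hc0, ← ENNReal.ofReal_add (by positivity) hq0, hbc,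
              ENNReal.ofReal_one, one_mul]
        _ ≤ S R' A P (U.erase x) D + P x * Tx R' A P U D x := by
            refine add_le_add le_rfl (mul_le_mul_left (ENNReal.ofReal_le_ofReal hq) _)
        _ ≤ S R' A P U D := S_split R' A P U D x
    · rw [case_two hb R' A f hfA U D hA ω ω' hω hno]
      simp

/-- The exploration inequality. -/
theorem expl {g : Finset (Site d) → (Site d → Bool) → ((Site d → Bool) → ℝ) → ℝ} (hb : Sp g)
    (R R' : ℕ) (hR : R ≤ R') (p : Site d → ℝ)
    (hp : ∀ (x : Site d) (Λ : Finset (Site d)), x ∈ Λ → ∀ ω ω' : Site d → Bool,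
      (∀ y ∈ ball x R, y ∉ Λ → ω y = ω' y) →
      |g Λ ω (ind x) - g Λ ω' (ind x)| ≤ p x)
    (A : Finset (Site d)) (f : (Site d → Bool) → ℝ) (hf : Unit01 f) (hfA : LocalOn A f)
    (Λ : Finset (Site d)) (n : ℕ) (ω ω' : Site d → Bool)
    (hA : ∀ a ∈ A, ∀ y, y ∉ Λ → ω y ≠ ω' y → (n + 1) * (R' + 1) ≤ dist1 a y) :
    ENNReal.ofReal |g Λ ω f - g Λ ω' f| ≤
      chSum R' A (fun x => ENNReal.ofReal (p x)) n := by
  classical
  have h1 := claim hb R R' hR p hp A f hf hfA Λ.card Λ rfl {y | y ∉ Λ ∧ ω y ≠ ω' y}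
    (fun y hy => hy.1)
    (fun a ha y hy => by
      have := hA a ha y hy.1 hy.2
      nlinarith [Nat.zero_le n, Nat.zero_le R']) ω ω'
    (fun y h1 h2 => by
      by_contra h3
      exact h1 ⟨h2, h3⟩)
  refine h1.trans ?_
  unfold S chSum
  refine ENNReal.tsum_le_tsum fun l => ?_
  by_cases hc : Cnt R' A Λ {y | y ∉ Λ ∧ ω y ≠ ω' y} l
  · rw [if_pos hc]
    have h2 : IsCh R' A l ∧ n ≤ l.length := by
      refine ⟨hc.1, ?_⟩
      obtain ⟨h3, -, -, x0, hx0, y, hy, hxy⟩ := hc
      obtain ⟨a, ha, h4⟩ := chain_dist R' A l h3 x0 hx0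
      have h5 := hA a ha y hy.1 hy.2
      have h6 := dist_tri a x0 y
      have h7 : (n + 1) * (R' + 1) < (l.length + 1) * (R' + 1) := by
        have : (l.length + 1) * (R' + 1) = l.length * (R' + 1) + (R' + 1) := by ring
        omega
      have h8 := Nat.lt_of_mul_lt_mul_right h7
      omega
    rw [if_pos h2]
  · rw [if_neg hc]
    exact zero_le

/-- averages of functions which agree on the configurations that matter -/
theorem Sp.congr {g : Finset (Site d) → (Site d → Bool) → ((Site d → Bool) → ℝ) → ℝ} (hb : Sp g)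
    (Λ : Finset (Site d)) (ω : Site d → Bool) (f f' : (Site d → Bool) → ℝ)
    (h : ∀ η : Λ → Bool, f (glue Λ η ω) = f' (glue Λ η ω)) : g Λ ω f = g Λ ω f' :=
  le_antisymm (hb.mono Λ ω f f' fun η => (h η).le) (hb.mono Λ ω f' f fun η => (h η).ge)

/-- decay of influences gives decay of covariances in finite volumes -/
theorem Sp.mixing {g : Finset (Site d) → (Site d → Bool) → ((Site d → Bool) → ℝ) → ℝ}
    (hb : Sp g) {B Λ Λ0 : Finset (Site d)} (hsub : Λ0 ⊆ Λ) (ω : Site d → Bool)
    {f f' : (Site d → Bool) → ℝ} (hf' : Unit01 f') (hB : LocalOn B f') (hΛ : ∀ y ∈ B, y ∉ Λ0)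
    {δ : ℝ} (hδ : ∀ η η' : Λ → Bool, |g Λ0 (glue Λ η ω) f - g Λ0 (glue Λ η' ω) f| ≤ δ) :
    |g Λ ω (fun σ => f σ * f' σ) - g Λ ω f * g Λ ω f'| ≤ δ := by
  have hδ0 : 0 ≤ δ := (abs_nonneg _).trans (hδ (fun _ => true) (fun _ => true))
  have e1 : g Λ ω (fun σ => f σ * f' σ) = g Λ ω (fun τ => g Λ0 τ f * f' τ) := by
    rw [hb.cons Λ ω Λ0 hsub]
    refine hb.congr Λ ω _ _ fun η => ?_
    set τ := glue Λ η ω
    have h1 : g Λ0 τ (fun σ => f σ * f' σ) = g Λ0 τ (fun σ => f' τ * f σ + 0 * f σ) := by
      refine hb.congr Λ0 τ _ _ fun η' => ?_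
      have : f' (glue Λ0 η' τ) = f' τ := by
        refine hB _ _ fun y hy => ?_
        unfold glue
        rw [dif_neg (hΛ y hy)]
      rw [this]
      ring
    show g Λ0 τ (fun σ => f σ * f' σ) = g Λ0 τ f * f' τ
    rw [h1, hb.lin]
    ring
  set c := g Λ ω f with hc
  have hclose : ∀ η : Λ → Bool, |g Λ0 (glue Λ η ω) f - c| ≤ δ := by
    intro η
    have h2 : c = g Λ ω (fun τ => g Λ0 τ f) := hb.cons Λ ω Λ0 hsub f
    rw [abs_le]
    constructor
    · have h3 : c ≤ g Λ ω (fun _ => g Λ0 (glue Λ η ω) f + δ) := by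
        rw [h2]
        refine hb.mono Λ ω _ _ fun η' => ?_
        have := (abs_le.1 (hδ η' η)).2
        linarith
      rw [hb.const] at h3
      linarith
    · have h3 : g Λ ω (fun _ => g Λ0 (glue Λ η ω) f - δ) ≤ c := by
        rw [h2]
        refine hb.mono Λ ω _ _ fun η' => ?_
        have := (abs_le.1 (hδ η' η)).1
        linarith
      rw [hb.const] at h3
      linarith
  have e2 : g Λ ω (fun σ => f σ * f' σ) - c * g Λ ω f' =
      g Λ ω (fun τ => (g Λ0 τ f - c) * f' τ) := by
    have h4 : g Λ ω (fun τ => (g Λ0 τ f - c) * f' τ) =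
        g Λ ω (fun τ => 1 * (fun τ => g Λ0 τ f * f' τ) τ + (-c) * f' τ) := by
      congr 1
      funext τ
      ring
    rw [h4, hb.lin, e1]
    ring
  rw [e2, abs_le]
  have hb1 : ∀ η : Λ → Bool, |(g Λ0 (glue Λ η ω) f - c) * f' (glue Λ η ω)| ≤ δ := by
    intro η
    rw [abs_mul]
    have h5 := hf' (glue Λ η ω)
    rw [abs_of_nonneg h5.1]
    calc |g Λ0 (glue Λ η ω) f - c| * f' (glue Λ η ω) ≤ δ * 1 :=
          mul_le_mul (hclose η) h5.2 h5.1 hδ0
      _ = δ := mul_one δ
  constructor
  · rw [← hb.const Λ ω (-δ)]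
    exact hb.mono Λ ω _ _ fun η => (abs_le.1 (hb1 η)).1
  · rw [← hb.const Λ ω δ]
    exact hb.mono Λ ω _ _ fun η => (abs_le.1 (hb1 η)).2

end Pool.Agent.Helper79K9.EA
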