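import Pool.Agent.Helper79K9.EA.Basic
import Pool.Agent.H47R2.EA.GIBBSE
import Pool.Agent.H47R2.EA.GIBBSU

/-!
# Gibbs states: existence, uniqueness, DLR equations for all finite sets
-/

set_option autoImplicit false

open MeasureTheory Filter Topology
open scoped ENNReal BoundedContinuousFunction

namespace Pool.Agent.Helper79K9.EA

open Pool.H47EA hiding ham Zp gE IsGibbs Forget meas_ham meas_gE gE_indicator_mem
open Pool.H47EA.GIBBSE hiding continuous_ham continuous_wexp continuous_Zp Zp_pos ww continuous_ww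
  ww_nonneg ww_sum ww_le_one gE_eq continuous_gE KK integral_KK prob_KK integral_KK_dirac

variable {d : ℕ}

variable (W : Sym2 (Site d) → ℝ) (h0 : Site d → ℝ)

theorem continuous_spin (e : Sym2 (Site d)) : Continuous (fun σ : Site d → Bool => spin σ e) := by
  induction e using Sym2.ind with
  | _ x y =>
    change Continuous (fun σ : Site d → Bool => sg (σ x) * sg (σ y))
    exact (continuous_sg.comp (continuous_apply x)).mul (continuous_sg.comp (continuous_apply y))

theorem continuous_ham (Λ : Finset (Site d)) :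
    Continuous (fun σ : Site d → Bool => ham W h0 Λ σ) := by
  unfold ham
  exact (continuous_finset_sum _ fun e _ => continuous_const.mul (continuous_spin e)).add
    (continuous_finset_sum _ fun x _ => continuous_const.mul
      (continuous_sg.comp (continuous_apply x)))

theorem continuous_wexp (Λ : Finset (Site d)) (η : Λ → Bool) :
    Continuous (fun ω : Site d → Bool => Real.exp (ham W h0 Λ (glue Λ η ω))) :=
  Real.continuous_exp.comp ((continuous_ham W h0 Λ).comp (continuous_glue Λ η))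

theorem continuous_Zp (Λ : Finset (Site d)) :
    Continuous (fun ω : Site d → Bool => Zp W h0 Λ ω) := by
  unfold Zp
  exact continuous_finset_sum _ fun η _ => continuous_wexp W h0 Λ η

/-- normalised weights -/
noncomputable def ww (Λ : Finset (Site d)) (η : Λ → Bool)
    (ω : Site d → Bool) : ℝ := Real.exp (ham W h0 Λ (glue Λ η ω)) / Zp W h0 Λ ω

theorem continuous_ww (Λ : Finset (Site d)) (η : Λ → Bool) :
    Continuous (ww W h0 Λ η) :=
  (continuous_wexp W h0 Λ η).div (continuous_Zp W h0 Λ) fun ω => (Zp_pos W h0 Λ ω).ne'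

theorem ww_nonneg (Λ : Finset (Site d)) (η : Λ → Bool)
    (ω : Site d → Bool) : 0 ≤ ww W h0 Λ η ω :=
  div_nonneg (Real.exp_pos _).le (Zp_pos W h0 Λ ω).le

theorem ww_sum (Λ : Finset (Site d)) (ω : Site d → Bool) :
    ∑ η, ww W h0 Λ η ω = 1 := by
  unfold ww
  rw [← Finset.sum_div]
  exact div_self (Zp_pos W h0 Λ ω).ne'

theorem ww_le_one (Λ : Finset (Site d)) (η : Λ → Bool)
    (ω : Site d → Bool) : ww W h0 Λ η ω ≤ 1 := by
  rw [← ww_sum W h0 Λ ω]
  exact Finset.single_le_sum (fun η _ => ww_nonneg W h0 Λ η ω) (Finset.mem_univ η)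

theorem gE_eq (Λ : Finset (Site d)) (ω : Site d → Bool)
    (f : (Site d → Bool) → ℝ) :
    gE W h0 Λ ω f = ∑ η, ww W h0 Λ η ω * f (glue Λ η ω) := by
  unfold gE ww
  rw [Finset.sum_div]
  exact Finset.sum_congr rfl fun η _ => by ring

theorem continuous_gE (Λ : Finset (Site d))
    (f : (Site d → Bool) → ℝ) (hf : Continuous f) :
    Continuous (fun ω => gE W h0 Λ ω f) := by
  simp only [gE_eq]
  exact continuous_finset_sum _ fun η _ =>
    (continuous_ww W h0 Λ η).mul (hf.comp (continuous_glue Λ η))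

/-- the Gibbs kernel applied to a measure -/
noncomputable def KK (Λ : Finset (Site d))
    (π : Measure (Site d → Bool)) : Measure (Site d → Bool) :=
  ∑ η : Λ → Bool, (π.withDensity fun ω => ENNReal.ofReal (ww W h0 Λ η ω)).map (glue Λ η)

theorem integral_KK (Λ : Finset (Site d))
    (π : Measure (Site d → Bool)) [IsProbabilityMeasure π]
    (f : (Site d → Bool) → ℝ) (hf : Measurable f) (C : ℝ) (hC : ∀ x, |f x| ≤ C) :
    ∫ ω, f ω ∂(KK W h0 Λ π) = ∫ ω, gE W h0 Λ ω f ∂π := by
  have hg : ∀ η : Λ → Bool, Measurable (glue Λ η) := fun η => (continuous_glue Λ η).measurable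
  have hw : ∀ η : Λ → Bool, Measurable (fun ω => ENNReal.ofReal (ww W h0 Λ η ω)) :=
    fun η => (continuous_ww W h0 Λ η).measurable.ennreal_ofReal
  have hfin : ∀ η : Λ → Bool,
      IsFiniteMeasure (π.withDensity fun ω => ENNReal.ofReal (ww W h0 Λ η ω)) := by
    intro η
    apply isFiniteMeasure_withDensity
    have : ∫⁻ ω, ENNReal.ofReal (ww W h0 Λ η ω) ∂π ≤ ∫⁻ _, 1 ∂π := by
      apply lintegral_mono
      intro ω
      calc ENNReal.ofReal (ww W h0 Λ η ω) ≤ ENNReal.ofReal 1 :=
            ENNReal.ofReal_le_ofReal (ww_le_one W h0 Λ η ω)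
        _ = 1 := ENNReal.ofReal_one
    refine ne_top_of_le_ne_top ?_ this
    simp
  have hint : ∀ η : Λ → Bool,
      Integrable f ((π.withDensity fun ω => ENNReal.ofReal (ww W h0 Λ η ω)).map (glue Λ η)) := by
    intro η
    have := hfin η
    have h2 : IsFiniteMeasure
        ((π.withDensity fun ω => ENNReal.ofReal (ww W h0 Λ η ω)).map (glue Λ η)) :=
      Measure.isFiniteMeasure_map _ _
    exact Integrable.of_bound hf.aestronglyMeasurable C (ae_of_all _ hC)
  unfold KK
  rw [integral_finset_sum_measure fun η _ => hint η]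
  have h1 : ∀ η : Λ → Bool,
      ∫ ω, f ω ∂((π.withDensity fun ω => ENNReal.ofReal (ww W h0 Λ η ω)).map (glue Λ η)) =
        ∫ ω, ww W h0 Λ η ω * f (glue Λ η ω) ∂π := by
    intro η
    rw [integral_map (hg η).aemeasurable hf.aestronglyMeasurable,
      integral_withDensity_eq_integral_toReal_smul (hw η) (ae_of_all _ fun ω => ENNReal.ofReal_lt_top)]
    refine integral_congr_ae (ae_of_all _ fun ω => ?_)
    simp only [smul_eq_mul]
    rw [ENNReal.toReal_ofReal (ww_nonneg W h0 Λ η ω)]
  rw [Finset.sum_congr rfl fun η _ => h1 η, ← integral_finset_sum]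
  · exact integral_congr_ae (ae_of_all _ fun ω => (gE_eq W h0 Λ ω f).symm)
  · intro η _
    refine Integrable.of_bound ?_ C (ae_of_all _ fun ω => ?_)
    · exact ((continuous_ww W h0 Λ η).measurable.mul (hf.comp (hg η))).aestronglyMeasurable
    · rw [Real.norm_eq_abs, abs_mul, abs_of_nonneg (ww_nonneg W h0 Λ η ω)]
      calc ww W h0 Λ η ω * |f (glue Λ η ω)| ≤ 1 * |f (glue Λ η ω)| :=
            mul_le_mul_of_nonneg_right (ww_le_one W h0 Λ η ω) (abs_nonneg _)
        _ ≤ C := by rw [one_mul]; exact hC _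

theorem prob_KK (Λ : Finset (Site d))
    (π : Measure (Site d → Bool)) [IsProbabilityMeasure π] :
    IsProbabilityMeasure (KK W h0 Λ π) := by
  constructor
  have hg : ∀ η : Λ → Bool, Measurable (glue Λ η) := fun η => (continuous_glue Λ η).measurable
  unfold KK
  rw [Measure.finset_sum_apply]
  have h1 : ∀ η : Λ → Bool,
      ((π.withDensity fun ω => ENNReal.ofReal (ww W h0 Λ η ω)).map (glue Λ η)) Set.univ =
        ∫⁻ ω, ENNReal.ofReal (ww W h0 Λ η ω) ∂π := by
    intro η
    rw [Measure.map_apply (hg η) MeasurableSet.univ, Set.preimage_univ,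
      withDensity_apply _ MeasurableSet.univ, Measure.restrict_univ]
  rw [Finset.sum_congr rfl fun η _ => h1 η, ← lintegral_finset_sum]
  · have h2 : ∀ ω, ∑ η, ENNReal.ofReal (ww W h0 Λ η ω) = 1 := by
      intro ω
      rw [← ENNReal.ofReal_sum_of_nonneg fun η _ => ww_nonneg W h0 Λ η ω, ww_sum,
        ENNReal.ofReal_one]
    simp only [h2]
    simp
  · intro η _
    exact (continuous_ww W h0 Λ η).measurable.ennreal_ofReal

theorem integral_KK_dirac (Λ : Finset (Site d)) (ω₀ : Site d → Bool)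
    (f : (Site d → Bool) → ℝ) (hf : Measurable f) (C : ℝ) (hC : ∀ x, |f x| ≤ C) :
    ∫ ω, f ω ∂(KK W h0 Λ (Measure.dirac ω₀)) = gE W h0 Λ ω₀ f := by
  rw [integral_KK W h0 Λ _ f hf C hC, integral_dirac]

theorem exists_gibbs : ∃ π : Measure (Site d → Bool), IsGibbs W h0 π := by
  let ω₀ : Site d → Bool := fun _ => true
  let P : Finset (Site d) → ProbabilityMeasure (Site d → Bool) := fun Λ =>
    ⟨KK W h0 Λ (Measure.dirac ω₀), prob_KK W h0 Λ _⟩
  let U : Ultrafilter (Finset (Site d)) := Ultrafilter.of atTop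
  have hU : (U : Filter (Finset (Site d))) ≤ atTop := Ultrafilter.of_le _
  obtain ⟨π, -, hπ⟩ := (isCompact_univ (X := ProbabilityMeasure (Site d → Bool))).ultrafilter_le_nhds
    (U.map P) (by simp)
  have hlim : Tendsto P U (𝓝 π) := hπ
  have hconv : ∀ f : (Site d → Bool) → ℝ, Continuous f →
      Tendsto (fun Λ => gE W h0 Λ ω₀ f) U (𝓝 (∫ ω, f ω ∂(π : Measure (Site d → Bool)))) := by
    intro f hf
    let F : (Site d → Bool) →ᵇ ℝ := BoundedContinuousFunction.mkOfCompact ⟨f, hf⟩
    have h1 := (ProbabilityMeasure.tendsto_iff_forall_integral_tendsto.mp hlim) F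
    refine h1.congr fun Λ => ?_
    exact integral_KK_dirac W h0 Λ ω₀ f hf.measurable ‖F‖ fun x => F.norm_coe_le_norm x
  -- invariance
  have hinv : ∀ (Λ : Finset (Site d)) (f : (Site d → Bool) → ℝ), Continuous f →
      ∫ ω, gE W h0 Λ ω f ∂(π : Measure (Site d → Bool)) =
        ∫ ω, f ω ∂(π : Measure (Site d → Bool)) := by
    intro Λ f hf
    have h1 := hconv f hf
    have h2 := hconv (fun ω => gE W h0 Λ ω f) (continuous_gE W h0 Λ f hf)
    refine tendsto_nhds_unique h2 (h1.congr' ?_)
    have h3 : ∀ᶠ Λ' in (U : Filter (Finset (Site d))), Λ ⊆ Λ' := hU (eventually_ge_atTop Λ)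
    filter_upwards [h3] with Λ' hΛ
    exact (sp W h0).cons Λ' ω₀ Λ hΛ f
  have hK : ∀ Λ : Finset (Site d), KK W h0 Λ (π : Measure (Site d → Bool)) =
      (π : Measure (Site d → Bool)) := by
    intro Λ
    have := prob_KK W h0 Λ (π : Measure (Site d → Bool))
    haveI : TopologicalSpace.MetrizableSpace (Site d → Bool) :=
      TopologicalSpace.metrizableSpace_of_t3_secondCountable _
    letI : MetricSpace (Site d → Bool) := TopologicalSpace.metrizableSpaceMetric _
    apply ext_of_forall_integral_eq_of_IsFiniteMeasure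
    intro f
    rw [integral_KK W h0 Λ _ f f.continuous.measurable ‖f‖ fun x => f.norm_coe_le_norm x]
    exact hinv Λ f f.continuous
  refine ⟨π, inferInstance, ?_⟩
  intro a b A hA
  have hind : Measurable (A.indicator fun _ => (1 : ℝ)) := measurable_const.indicator hA
  have h1 := integral_KK W h0 (Finset.Icc a b) (π : Measure (Site d → Bool))
    (A.indicator fun _ => (1 : ℝ)) hind 1 (by
      intro x
      by_cases hx : x ∈ A
      · simp [hx]
      · simp [hx])
  rw [← h1, hK, integral_indicator hA]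
  simp [Measure.real]


/-- vanishing influence of the boundary condition -/
def Forget (g : Finset (Site d) → (Site d → Bool) → ((Site d → Bool) → ℝ) → ℝ) : Prop :=
  ∀ (A : Finset (Site d)) (δ : ℝ), 0 < δ → ∃ Λ₀ : Finset (Site d), ∀ Λ : Finset (Site d),
    Λ₀ ⊆ Λ → ∀ f, Unit01 f → LocalOn A f → ∀ ω ω' : Site d → Bool,
      |g Λ ω f - g Λ ω' f| ≤ δ

theorem meas_gE (Λ : Finset (Site d)) (f : (Site d → Bool) → ℝ) (hf : Measurable f) :
    Measurable (fun ω : Site d → Bool => gE W h0 Λ ω f) := by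
  simp only [gE_eq]
  exact Finset.measurable_sum _ fun η _ =>
    (continuous_ww W h0 Λ η).measurable.mul (hf.comp (continuous_glue Λ η).measurable)

theorem unique_gibbs (hF : Forget (gE W h0)) (π π' : Measure (Site d → Bool))
    (hπ : IsGibbs W h0 π) (hπ' : IsGibbs W h0 π') : π = π' := by
  have := hπ.1
  have := hπ'.1
  refine MeasureTheory.ext_of_generate_finite (measurableCylinders fun _ : Site d => Bool)
    generateFrom_measurableCylinders.symm isPiSystem_measurableCylinders ?_ (by simp)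
  intro C hC
  obtain ⟨s, S, hS, rfl⟩ := (mem_measurableCylinders C).1 hC
  set C : Set (Site d → Bool) := cylinder (α := fun _ : Site d => Bool) s S with hCdef
  have hCm : MeasurableSet C := MeasurableSet.cylinder s hS
  set f : (Site d → Bool) → ℝ := C.indicator fun _ => (1 : ℝ) with hf
  have hfm : Measurable f := measurable_const.indicator hCm
  have hf01 : Unit01 f := by
    intro σ
    by_cases h : σ ∈ C <;> simp [hf, h]
  have hfl : LocalOn s f := by
    intro σ σ' h
    have : σ ∈ C ↔ σ' ∈ C := by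
      rw [hCdef, mem_cylinder, mem_cylinder]
      have : s.restrict σ = s.restrict σ' := by
        funext x; exact h x.1 x.2
      rw [this]
    by_cases h1 : σ ∈ C
    · simp [hf, h1, this.1 h1]
    · have h2 : σ' ∉ C := fun h => h1 (this.2 h)
      simp [hf, h1, h2]
  -- comparison of one Gibbs state with a fixed boundary condition
  have key : ∀ (ρ : Measure (Site d → Bool)), IsGibbs W h0 ρ → ∀ (a b : Site d) (δ : ℝ),
      0 < δ → (∀ ω ω' : Site d → Bool,
        |gE W h0 (Finset.Icc a b) ω f - gE W h0 (Finset.Icc a b) ω' f| ≤ δ) →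
      |(ρ C).toReal - gE W h0 (Finset.Icc a b) (fun _ => true) f| ≤ δ := by
    intro ρ hρ a b δ hδ hb
    have := hρ.1
    rw [hρ.2 a b C hCm]
    have hint : Integrable (fun ω => gE W h0 (Finset.Icc a b) ω f) ρ := by
      refine Integrable.of_bound (meas_gE W h0 _ f hfm).aestronglyMeasurable 1 ?_
      refine Filter.Eventually.of_forall fun ω => ?_
      have := (sp W h0).unit (Finset.Icc a b) ω f hf01
      rw [Real.norm_eq_abs, abs_of_nonneg this.1]
      exact this.2
    have e : (∫ ω, gE W h0 (Finset.Icc a b) ω f ∂ρ) - gE W h0 (Finset.Icc a b) (fun _ => true) f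
        = ∫ ω, (gE W h0 (Finset.Icc a b) ω f
            - gE W h0 (Finset.Icc a b) (fun _ => true) f) ∂ρ := by
      rw [integral_sub hint (integrable_const _)]
      simp
    rw [e]
    have := norm_integral_le_of_norm_le_const (μ := ρ)
      (f := fun ω => gE W h0 (Finset.Icc a b) ω f - gE W h0 (Finset.Icc a b) (fun _ => true) f)
      (C := δ) (Filter.Eventually.of_forall fun ω => by
        rw [Real.norm_eq_abs]; exact hb ω _)
    simpa using this
  have hfin : ∀ δ : ℝ, 0 < δ → |(π C).toReal - (π' C).toReal| ≤ 2 * δ := by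
    intro δ hδ
    obtain ⟨Λ₀, hΛ⟩ := hF s δ hδ
    obtain ⟨b, hb⟩ := Λ₀.bddAbove
    obtain ⟨a, ha⟩ := Λ₀.bddBelow
    have hsub : Λ₀ ⊆ Finset.Icc a b := by
      intro x hx
      rw [Finset.mem_Icc]
      exact ⟨ha hx, hb hx⟩
    have hh := hΛ (Finset.Icc a b) hsub f hf01 hfl
    have h1 := key π hπ a b δ hδ hh
    have h2 := key π' hπ' a b δ hδ hh
    rw [abs_le] at h1 h2 ⊢
    constructor <;> linarith [h1.1, h1.2, h2.1, h2.2]
  have heq : (π C).toReal = (π' C).toReal := by
    by_contra hne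
    have hpos : 0 < |(π C).toReal - (π' C).toReal| := abs_pos.2 (sub_ne_zero.2 hne)
    have := hfin (|(π C).toReal - (π' C).toReal| / 4) (by positivity)
    linarith
  exact (ENNReal.toReal_eq_toReal_iff' (measure_ne_top _ _) (measure_ne_top _ _)).1 heq



/-- the Gibbs kernel of a finite box leaves a Gibbs state invariant -/
theorem KK_box {π : Measure (Site d → Bool)} (hπ : IsGibbs W h0 π) (a b : Site d) :
    KK W h0 (Finset.Icc a b) π = π := by
  have := hπ.1
  have := prob_KK W h0 (Finset.Icc a b) π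
  ext A hA
  have hind : Measurable (A.indicator fun _ => (1 : ℝ)) := measurable_const.indicator hA
  have h1 := integral_KK W h0 (Finset.Icc a b) π (A.indicator fun _ => (1 : ℝ)) hind 1 (by
      intro x
      by_cases hx : x ∈ A
      · simp [hx]
      · simp [hx])
  rw [← hπ.2 a b A hA, integral_indicator hA] at h1
  have h2 : (KK W h0 (Finset.Icc a b) π A).toReal = (π A).toReal := by
    rw [← h1]
    simp [Measure.real]
  exact (ENNReal.toReal_eq_toReal_iff' (measure_ne_top _ _) (measure_ne_top _ _)).1 h2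

/-- the DLR equations for all finite sets and all bounded measurable functions -/
theorem dlr {π : Measure (Site d → Bool)} (hπ : IsGibbs W h0 π) (Λ : Finset (Site d))
    (f : (Site d → Bool) → ℝ) (hf : Measurable f) (C : ℝ) (hC : ∀ x, |f x| ≤ C) :
    ∫ ω, gE W h0 Λ ω f ∂π = ∫ ω, f ω ∂π := by
  have := hπ.1
  obtain ⟨b, hb⟩ := Λ.bddAbove
  obtain ⟨a, ha⟩ := Λ.bddBelow
  have hsub : Λ ⊆ Finset.Icc a b := by
    intro x hx
    rw [Finset.mem_Icc]
    exact ⟨ha hx, hb hx⟩
  have hC' : ∀ x, |gE W h0 Λ x f| ≤ C := by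
    intro x
    rw [abs_le]
    constructor
    · rw [← gE_const W h0 Λ x (-C)]
      exact gE_mono W h0 Λ x _ _ fun η => (abs_le.1 (hC _)).1
    · rw [← gE_const W h0 Λ x C]
      exact gE_mono W h0 Λ x _ _ fun η => (abs_le.1 (hC _)).2
  have e1 : ∫ ω, f ω ∂π = ∫ ω, gE W h0 (Finset.Icc a b) ω f ∂π := by
    rw [← integral_KK W h0 (Finset.Icc a b) π f hf C hC, KK_box W h0 hπ]
  have e2 : ∫ ω, gE W h0 Λ ω f ∂π =
      ∫ ω, gE W h0 (Finset.Icc a b) ω (fun τ => gE W h0 Λ τ f) ∂π := by
    rw [← integral_KK W h0 (Finset.Icc a b) π _ (meas_gE W h0 Λ f hf) C hC', KK_box W h0 hπ]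
  rw [e1, e2]
  refine integral_congr_ae (ae_of_all _ fun ω => ?_)
  exact ((sp W h0).cons (Finset.Icc a b) ω Λ hsub f).symm

/-- measurability of local functions -/
theorem meas_local {A : Finset (Site d)} {f : (Site d → Bool) → ℝ} (hf : LocalOn A f) :
    Measurable f := by
  classical
  let F : (A → Bool) → ℝ := fun η => f (glue A η fun _ => true)
  have e : f = F ∘ fun σ => (fun x : A => σ x.1) := by
    funext σ
    refine hf _ _ fun x hx => ?_
    show σ x = glue A (fun x : A => σ x.1) (fun _ => true) x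
    unfold glue
    rw [dif_pos hx]
  rw [e]
  exact (measurable_of_finite F).comp (measurable_pi_lambda _ fun x => measurable_pi_apply _)

/-- decay of the influence of the boundary condition gives decay of covariances -/
theorem mixing {π : Measure (Site d → Bool)} (hπ : IsGibbs W h0 π) {A B Λ : Finset (Site d)}
    {f f' : (Site d → Bool) → ℝ} (hf : Unit01 f) (hf' : Unit01 f') (hA : LocalOn A f)
    (hB : LocalOn B f') (hΛ : ∀ y ∈ B, y ∉ Λ) {δ : ℝ}
    (hδ : ∀ ω ω' : Site d → Bool, |gE W h0 Λ ω f - gE W h0 Λ ω' f| ≤ δ) :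
    |∫ ω, f ω * f' ω ∂π - (∫ ω, f ω ∂π) * ∫ ω, f' ω ∂π| ≤ δ := by
  have := hπ.1
  have mf := meas_local hA
  have mf' := meas_local hB
  have bf : ∀ x, |f x| ≤ 1 := fun x => by rw [abs_of_nonneg (hf x).1]; exact (hf x).2
  have bf' : ∀ x, |f' x| ≤ 1 := fun x => by rw [abs_of_nonneg (hf' x).1]; exact (hf' x).2
  have mg := meas_gE W h0 Λ f mf
  have bg : ∀ ω, |gE W h0 Λ ω f| ≤ 1 := fun ω => by
    have := (sp W h0).unit Λ ω f hf
    rw [abs_of_nonneg this.1]; exact this.2
  have e1 : ∫ ω, f ω * f' ω ∂π = ∫ ω, gE W h0 Λ ω f * f' ω ∂π := by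
    rw [← dlr W h0 hπ Λ (fun ω => f ω * f' ω) (mf.mul mf') 1 (fun x => by
      rw [abs_mul]
      exact mul_le_one₀ (bf x) (abs_nonneg _) (bf' x))]
    refine integral_congr_ae (ae_of_all _ fun ω => ?_)
    show gE W h0 Λ ω (fun ω => f ω * f' ω) = gE W h0 Λ ω f * f' ω
    have h1 : gE W h0 Λ ω (fun σ => f σ * f' σ) =
        gE W h0 Λ ω (fun σ => f' ω * f σ + 0 * f σ) := by
      apply gE_congr
      intro η
      have : f' (glue Λ η ω) = f' ω := by
        refine hB _ _ fun y hy => ?_
        unfold glue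
        rw [dif_neg (hΛ y hy)]
      rw [this]
      ring
    rw [h1, gE_lin]
    ring
  have e2 : ∫ ω, f ω ∂π = ∫ ω, gE W h0 Λ ω f ∂π := (dlr W h0 hπ Λ f mf 1 bf).symm
  set c := ∫ ω, f ω ∂π with hc
  have hgi : Integrable (fun ω => gE W h0 Λ ω f) π :=
    Integrable.of_bound mg.aestronglyMeasurable 1 (ae_of_all _ fun ω => by
      rw [Real.norm_eq_abs]; exact bg ω)
  have hclose : ∀ ω, |gE W h0 Λ ω f - c| ≤ δ := by
    intro ω
    have h1 : gE W h0 Λ ω f - c = ∫ ω', (gE W h0 Λ ω f - gE W h0 Λ ω' f) ∂π := by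
      rw [integral_sub (integrable_const _) hgi, ← e2]
      simp
    rw [h1]
    have := norm_integral_le_of_norm_le_const (μ := π)
      (f := fun ω' => gE W h0 Λ ω f - gE W h0 Λ ω' f) (C := δ) (ae_of_all _ fun ω' => by
        rw [Real.norm_eq_abs]; exact hδ ω ω')
    simpa using this
  have hfi : Integrable f' π :=
    Integrable.of_bound mf'.aestronglyMeasurable 1 (ae_of_all _ fun ω => by
      rw [Real.norm_eq_abs]; exact bf' ω)
  have hpi : Integrable (fun ω => gE W h0 Λ ω f * f' ω) π :=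
    Integrable.of_bound (mg.mul mf').aestronglyMeasurable 1 (ae_of_all _ fun ω => by
      rw [Real.norm_eq_abs, abs_mul]
      exact mul_le_one₀ (bg ω) (abs_nonneg _) (bf' ω))
  have e3 : ∫ ω, f ω * f' ω ∂π - c * ∫ ω, f' ω ∂π = ∫ ω, (gE W h0 Λ ω f - c) * f' ω ∂π := by
    rw [e1, ← integral_const_mul, ← integral_sub hpi (hfi.const_mul c)]
    exact integral_congr_ae (ae_of_all _ fun ω => by ring)
  rw [e3]
  have := norm_integral_le_of_norm_le_const (μ := π)
    (f := fun ω => (gE W h0 Λ ω f - c) * f' ω) (C := δ) (ae_of_all _ fun ω => by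
      rw [Real.norm_eq_abs, abs_mul]
      calc |gE W h0 Λ ω f - c| * |f' ω| ≤ δ * 1 :=
            mul_le_mul (hclose ω) (bf' ω) (abs_nonneg _) ((abs_nonneg _).trans (hclose ω))
        _ = δ := mul_one δ)
  simpa using this

end Pool.Agent.Helper79K9.EA
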