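import Pool.Agent.Helper79K9.EA.Reduce
import Pool.Agent.H47R2.EA.GOOD

/-!
# Good balls for couplings with magnitudes
-/

set_option autoImplicit false

open MeasureTheory
open scoped ENNReal

namespace Pool.Agent.Helper79K9.EA

open Pool.H47EA hiding ham Zp gE IsGibbs ham_eq_sum ham_glue

variable {d : ℕ}

/-- operator norm bounds for the signed matrix with magnitudes in `ball x R`, and for its conjugate
by the weight `exp(-dist(x,·))`. -/
def GoodM (m : Sym2 (Site d) → ℝ) (J : Coupling d) (x : Site d) (R : ℕ) (T : ℝ) : Prop :=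
  (∀ u v : Site d → ℝ, |∑ y ∈ ball x R, ∑ z ∈ ball x R, u y * (m s(y, z) * Jc J y z) * v z| ≤
      T * √(∑ y ∈ ball x R, u y ^ 2) * √(∑ y ∈ ball x R, v y ^ 2)) ∧
  (∀ u v : Site d → ℝ, |∑ y ∈ ball x R, ∑ z ∈ ball x R,
        u y * (m s(y, z) * Real.exp ((dist1 x z : ℝ) - (dist1 x y : ℝ)) * Jc J y z) * v z| ≤
      T * √(∑ y ∈ ball x R, u y ^ 2) * √(∑ y ∈ ball x R, v y ^ 2))

open GoodAux in
theorem good_prob (hc : St_COMB) (hk : St_KR) (ht : St_TRACE) (hs : St_SIGN) :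
    ∃ C : ℝ, 0 < C ∧ ∀ (d : ℕ) (m : Sym2 (Site d) → ℝ), (∀ e, 0 ≤ m e ∧ m e ≤ 1) →
      ∀ (x : Site d) (R k : ℕ), 1 ≤ k → 2 * d + k + 1 ≤ 2 * k → ∀ T : ℝ, 0 < T →
      couplingLaw d {J | ¬ GoodM m J x R T} ≤
        ENNReal.ofReal (2 * ((ball x R).card : ℝ) * (C * k) ^ k * Real.exp (2 * k) / T ^ (2 * k)) := by
  obtain ⟨C, hC, hk⟩ := hk
  refine ⟨C, hC, ?_⟩
  intro d m hm x R k hk1 hdk T hT
  have h1 := half_bound hc hk ht hs (fun y z : Site d => m s(y, z))
    (fun y z _ => ⟨(hm _).1, (hm _).2.trans (Real.one_le_exp zero_le_one)⟩) x R k hk1 hdk hT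
  have h2 := half_bound hc hk ht hs
    (fun y z : Site d => m s(y, z) * Real.exp ((dist1 x z : ℝ) - (dist1 x y : ℝ)))
    (fun y z h => ⟨mul_nonneg (hm _).1 (Real.exp_pos _).le, by
      have h6 : Real.exp ((dist1 x z : ℝ) - (dist1 x y : ℝ)) ≤ Real.exp 1 := by
        apply Real.exp_le_exp.2
        have h3 := dist1_triangle x y z
        have h4 : dist1 y z = 1 := h
        have h5 : (dist1 x z : ℝ) ≤ dist1 x y + 1 := by
          rw [h4] at h3
          exact_mod_cast h3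
        linarith
      calc m s(y, z) * Real.exp ((dist1 x z : ℝ) - (dist1 x y : ℝ)) ≤ 1 * Real.exp 1 :=
            mul_le_mul (hm _).2 h6 (Real.exp_pos _).le zero_le_one
        _ = Real.exp 1 := one_mul _⟩) x R k hk1 hdk hT
  set M := ((ball x R).card : ℝ) * (C * k) ^ k * Real.exp (2 * k) / T ^ (2 * k) with hM
  have hM0 : 0 ≤ M := by positivity
  calc couplingLaw d {J | ¬ GoodM m J x R T}
      ≤ couplingLaw d ({J | ¬ ∀ u v : Site d → ℝ,
        |∑ y ∈ ball x R, ∑ z ∈ ball x R, u y * (m s(y, z) * Jc J y z) * v z| ≤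
        T * √(∑ y ∈ ball x R, u y ^ 2) * √(∑ y ∈ ball x R, v y ^ 2)} ∪
        {J | ¬ ∀ u v : Site d → ℝ,
        |∑ y ∈ ball x R, ∑ z ∈ ball x R, u y *
          (m s(y, z) * Real.exp ((dist1 x z : ℝ) - (dist1 x y : ℝ)) * Jc J y z) * v z| ≤
        T * √(∑ y ∈ ball x R, u y ^ 2) * √(∑ y ∈ ball x R, v y ^ 2)}) := by
        apply measure_mono
        intro J hJ
        by_contra h
        rw [Set.mem_union, not_or] at h
        apply hJ
        exact ⟨not_not.1 h.1, not_not.1 h.2⟩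
    _ ≤ _ := measure_union_le _ _
    _ ≤ ENNReal.ofReal M + ENNReal.ofReal M := add_le_add h1 h2
    _ = ENNReal.ofReal (M + M) := (ENNReal.ofReal_add hM0 hM0).symm
    _ = _ := by
        congr 1
        rw [hM]
        ring

theorem mat_cpl (β : ℝ) (m : Sym2 (Site d) → ℝ) (s : Site d → ℝ) (J : Coupling d) (y z : Site d) :
    mat (cpl β m s J) y z = β * m s(y, z) * Jc J y z * s y * s z := by
  unfold mat
  split_ifs with h
  · rfl
  · rw [Jc_eq_zero J y z h]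
    ring

theorem mat_le (β : ℝ) (hβ : 0 ≤ β) (m : Sym2 (Site d) → ℝ) (hm : ∀ e, 0 ≤ m e ∧ m e ≤ 1)
    (s : Site d → ℝ) (hs : ∀ x, |s x| ≤ 1) (J : Coupling d) (y z : Site d) :
    |mat (cpl β m s J) y z| ≤ β := by
  rw [mat_cpl, abs_mul, abs_mul, abs_mul, abs_mul, abs_of_nonneg hβ, abs_of_nonneg (hm _).1]
  have h1 := InfAux.abs_Jc_le J y z
  have h2 := hs y
  have h3 := hs z
  have h4 := (hm s(y, z)).2
  have h5 := (hm s(y, z)).1
  calc β * m s(y, z) * |Jc J y z| * |s y| * |s z| ≤ β * 1 * 1 * 1 * 1 := by gcongr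
    _ = β := by ring

theorem sq_weight (B : Finset (Site d)) (s u : Site d → ℝ) (hs : ∀ x, |s x| ≤ 1) :
    √(∑ y ∈ B, (u y * s y) ^ 2) ≤ √(∑ y ∈ B, u y ^ 2) := by
  refine Real.sqrt_le_sqrt (Finset.sum_le_sum fun y _ => ?_)
  rw [mul_pow]
  have h1 : s y ^ 2 ≤ 1 := by
    rw [← sq_abs]
    exact pow_le_one₀ (abs_nonneg _) (hs y)
  nlinarith [sq_nonneg (u y)]

theorem goodW_of (m : Sym2 (Site d) → ℝ) (J : Coupling d) (x : Site d) (R : ℕ) (T : ℝ)
    (hT : 0 < T) (hg : GoodM m J x R T) (β : ℝ) (hβ : 0 < β) (hβT : 4 * T * β ≤ 1)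
    (s : Site d → ℝ) (hs : ∀ x, |s x| ≤ 1) : GoodW (cpl β m s J) x R := by
  have hTβ : β * T ≤ 1 / 4 := by linarith
  have key : ∀ (X : Site d → Site d → ℝ) (Y : Site d → Site d → ℝ),
      (∀ y z, X y z = β * (s y * Y y z * s z)) →
      (∀ u v : Site d → ℝ, |∑ y ∈ ball x R, ∑ z ∈ ball x R, u y * Y y z * v z| ≤
        T * √(∑ y ∈ ball x R, u y ^ 2) * √(∑ y ∈ ball x R, v y ^ 2)) →
      ∀ u v : Site d → ℝ, |∑ y ∈ ball x R, ∑ z ∈ ball x R, u y * X y z * v z| ≤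
        1 / 4 * √(∑ y ∈ ball x R, u y ^ 2) * √(∑ y ∈ ball x R, v y ^ 2) := by
    intro X Y hXY hY u v
    have h1 := hY (fun y => u y * s y) (fun z => v z * s z)
    have e : ∑ y ∈ ball x R, ∑ z ∈ ball x R, u y * X y z * v z =
        β * ∑ y ∈ ball x R, ∑ z ∈ ball x R, (u y * s y) * Y y z * (v z * s z) := by
      rw [Finset.mul_sum]
      refine Finset.sum_congr rfl fun y _ => ?_
      rw [Finset.mul_sum]
      refine Finset.sum_congr rfl fun z _ => ?_
      rw [hXY y z]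
      ring
    rw [e, abs_mul, abs_of_pos hβ]
    have h2 := sq_weight (ball x R) s u hs
    have h3 := sq_weight (ball x R) s v hs
    calc β * |∑ y ∈ ball x R, ∑ z ∈ ball x R, (u y * s y) * Y y z * (v z * s z)| ≤
          β * (T * √(∑ y ∈ ball x R, (u y * s y) ^ 2) * √(∑ y ∈ ball x R, (v y * s y) ^ 2)) :=
          mul_le_mul_of_nonneg_left h1 hβ.le
      _ = (β * T) * (√(∑ y ∈ ball x R, (u y * s y) ^ 2) * √(∑ y ∈ ball x R, (v y * s y) ^ 2)) := by
          ring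
      _ ≤ (1 / 4) * (√(∑ y ∈ ball x R, u y ^ 2) * √(∑ y ∈ ball x R, v y ^ 2)) := by
          gcongr
      _ = _ := by ring
  constructor
  · exact key _ (fun y z => m s(y, z) * Jc J y z) (fun y z => by rw [mat_cpl]; ring) hg.1
  · exact key _ (fun y z => m s(y, z) * Real.exp ((dist1 x z : ℝ) - (dist1 x y : ℝ)) * Jc J y z)
      (fun y z => by rw [mat_cpl]; ring) hg.2

theorem goodM_local (m : Sym2 (Site d) → ℝ) (x : Site d) (R : ℕ) (T : ℝ) (J J' : Coupling d)
    (h : ∀ e : (lat d).edgeSet, (∀ v ∈ e.1, v ∈ ball x R) → J e = J' e) (hG : GoodM m J x R T) :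
    GoodM m J' x R T := by
  have hJ : ∀ y ∈ ball x R, ∀ z ∈ ball x R, Jc J' y z = Jc J y z := by
    intro y hy z hz
    unfold Jc
    by_cases hadj : (lat d).Adj y z
    · simp only [hadj, dif_pos]
      rw [h ⟨s(y, z), hadj⟩]
      intro v hv
      have : v ∈ s(y, z) := hv
      rw [Sym2.mem_iff] at this
      rcases this with rfl | rfl
      · exact hy
      · exact hz
    · simp [hadj]
  refine ⟨fun u v => ?_, fun u v => ?_⟩
  · have := hG.1 u v
    rwa [Finset.sum_congr rfl fun y hy => Finset.sum_congr rfl fun z hz => by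
      rw [hJ y hy z hz]]
  · have := hG.2 u v
    rwa [Finset.sum_congr rfl fun y hy => Finset.sum_congr rfl fun z hz => by
      rw [hJ y hy z hz]]

end Pool.Agent.Helper79K9.EA
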