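import Pool.Agent.Helper79K9.EA.Good
import Pool.Agent.Helper79K9.EA.Gibbs
import Pool.Agent.Helper79K9.EA.Chain
import Pool.Agent.H47R2.EA.FINAL
import Pool.Agent.H47R2.EA.BALL
import Pool.Agent.H47R2.EA.BASIC
import Pool.Agent.H47R2.EA.COMB
import Pool.Agent.H47R2.EA.COV1
import Pool.Agent.H47R2.EA.COV2
import Pool.Agent.H47R2.EA.DIFF
import Pool.Agent.H47R2.EA.ISING
import Pool.Agent.H47R2.EA.KHIN
import Pool.Agent.H47R2.EA.KR
import Pool.Agent.H47R2.EA.NET
import Pool.Agent.H47R2.EA.SIGN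
import Pool.Agent.H47R2.EA.TRACE

/-!
# Uniqueness and exponential mixing for all fields and all site weights: assembly
-/

set_option autoImplicit false

open MeasureTheory Filter
open scoped ENNReal Topology

namespace Pool.Agent.Helper79K9.EA

open Pool.H47EA hiding ham Zp gE IsGibbs Forget meas_ham meas_gE gE_indicator_mem ham_eq_sum ham_glue

/-- Exponential decay of the influence of the boundary condition for a family of finite-volume
averages. -/
def Decays {d : ℕ} (g : Finset (Site d) → (Site d → Bool) → ((Site d → Bool) → ℝ) → ℝ)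
    (K : Site d → ℝ) : Prop :=
  ∀ (A Λ : Finset (Site d)) (f : (Site d → Bool) → ℝ), Unit01 f → LocalOn A f →
    ∀ (n : ℕ) (ω ω' : Site d → Bool),
      (∀ a ∈ A, ∀ y, y ∉ Λ → ω y ≠ ω' y → n ≤ dist1 a y) →
      |g Λ ω f - g Λ ω' f| ≤ (∑ a ∈ A, K a) * Real.exp (-((n : ℝ) / (8 * d)))

/-- Exponential decay of the covariances of an expectation. -/
def Mixes {d : ℕ} (E : ((Site d → Bool) → ℝ) → ℝ) (K : Site d → ℝ) : Prop :=
  ∀ (A B : Finset (Site d)) (f f' : (Site d → Bool) → ℝ), Unit01 f → LocalOn A f →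
    Unit01 f' → LocalOn B f' → ∀ n : ℕ, (∀ a ∈ A, ∀ b ∈ B, n ≤ dist1 a b) →
      |E (fun σ => f σ * f' σ) - E f * E f'| ≤ (∑ a ∈ A, K a) * Real.exp (-((n : ℝ) / (8 * d)))

variable {d : ℕ}

theorem mixes_fin (W : Sym2 (Site d) → ℝ) (h0 : Site d → ℝ) (K : Site d → ℝ)
    (hD : Decays (gE W h0) K) (Λ : Finset (Site d)) (ω : Site d → Bool) :
    Mixes (gE W h0 Λ ω) K := by
  classical
  intro A B f f' hf hfA hf' hfB n hn
  set Λ0 : Finset (Site d) := Λ.filter (fun y => ∃ a ∈ A, dist1 a y < n) with hΛ0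
  refine (sp W h0).mixing (Λ0 := Λ0) (Finset.filter_subset _ _) ω hf' hfB ?_ ?_
  · intro y hy hyΛ
    obtain ⟨-, a, ha, hay⟩ := Finset.mem_filter.1 hyΛ
    exact absurd (hn a ha y hy) (not_le.2 hay)
  · intro η η'
    refine hD A Λ0 f hf hfA n _ _ fun a ha y hy hne => ?_
    by_contra hlt
    by_cases hyΛ : y ∈ Λ
    · exact hy (Finset.mem_filter.2 ⟨hyΛ, a, ha, not_le.1 hlt⟩)
    · apply hne
      rw [Basic.glue_not_mem _ _ hyΛ, Basic.glue_not_mem _ _ hyΛ]

theorem mixes_gibbs (W : Sym2 (Site d) → ℝ) (h0 : Site d → ℝ) (K : Site d → ℝ)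
    (hD : Decays (gE W h0) K) (π : Measure (Site d → Bool)) (hπ : IsGibbs W h0 π) :
    Mixes (fun f => ∫ σ, f σ ∂π) K := by
  classical
  intro A B f f' hf hfA hf' hfB n hn
  rcases Nat.eq_zero_or_pos n with h0n | hpos
  · -- trivial distance: the empty volume
    have h1 := mixing W h0 hπ (Λ := ∅) hf hf' hfA hfB (by simp)
      (δ := (∑ a ∈ A, K a) * Real.exp (-((n : ℝ) / (8 * d))))
      (fun ω ω' => hD A ∅ f hf hfA n ω ω' (fun a _ y _ _ => by omega))
    exact h1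
  · set Λ : Finset (Site d) := A.biUnion fun a => ball a (n - 1) with hΛ
    refine mixing W h0 hπ (Λ := Λ) hf hf' hfA hfB ?_ ?_
    · intro y hy hyΛ
      obtain ⟨a, ha, hay⟩ := Finset.mem_biUnion.1 hyΛ
      have h2 := (mem_ball_iff a y _).1 hay
      have h3 := hn a ha y hy
      omega
    · intro ω ω'
      refine hD A Λ f hf hfA n ω ω' fun a ha y hy _ => ?_
      by_contra hlt
      apply hy
      rw [hΛ, Finset.mem_biUnion]
      exact ⟨a, ha, (mem_ball_iff a y _).2 (by omega)⟩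

theorem forget_of (W : Sym2 (Site d) → ℝ) (h0 : Site d → ℝ) (hd : 1 ≤ d) (K : Site d → ℝ)
    (hD : Decays (gE W h0) K) : Forget (gE W h0) := by
  intro A δ hδ
  have hd0 : (0 : ℝ) < d := by exact_mod_cast hd
  have hlim : Tendsto (fun n : ℕ => (∑ a ∈ A, K a) * Real.exp (-((n : ℝ) / (8 * d)))) atTop
      (𝓝 0) := by
    have h1 : Tendsto (fun n : ℕ => Real.exp (-((n : ℝ) / (8 * d)))) atTop (𝓝 0) := by
      apply Real.tendsto_exp_neg_atTop_nhds_zero.comp
      exact Tendsto.atTop_div_const (by positivity) tendsto_natCast_atTop_atTop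
    simpa using h1.const_mul (∑ a ∈ A, K a)
  obtain ⟨n, hn⟩ := ((hlim.eventually (gt_mem_nhds hδ))).exists
  refine ⟨A.biUnion fun a => ball a n, fun Λ hΛ f hf hfA ω ω' => ?_⟩
  refine (hD A Λ f hf hfA n ω ω' fun a ha y hy _ => ?_).trans hn.le
  by_contra hcon
  apply hy
  apply hΛ
  rw [Finset.mem_biUnion]
  exact ⟨a, ha, (mem_ball_iff a y _).2 (by omega)⟩

open Classical in
theorem main : ∃ c : ℝ, 0 < c ∧ ∀ d : ℕ, 1 ≤ d → ∀ m : Sym2 (Site d) → ℝ,
    (∀ e, 0 ≤ m e ∧ m e ≤ 1) →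
    ∃ K : Site d → Coupling d → ℝ,
      (∀ x, (∀ J, 0 ≤ K x J) ∧ Integrable (K x) (couplingLaw d) ∧
        ∫ J, K x J ∂(couplingLaw d) ≤ 20000) ∧
      ∀ᵐ J ∂(couplingLaw d), ∀ β : ℝ, 0 < β → β ≤ c / √(d : ℝ) →
        ∀ s : Site d → ℝ, (∀ x, |s x| ≤ 1) → ∀ h : Site d → ℝ,
          Decays (gE (cpl β m s J) h) (fun x => K x J) := by
  have hi : St_ISING := t_ISING (t_COV2 t_COV1)
  have hkr : St_KR := t_KR t_KHIN (t_NET t_BALL)
  have hbl := t_BALL
  obtain ⟨C, hC, hgood⟩ := good_prob t_COMB hkr t_TRACE t_SIGN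
  set C' : ℝ := max C 1 with hC'
  have hC'1 : 1 ≤ C' := le_max_right _ _
  have hCC' : C ≤ C' := le_max_left _ _
  set τ : ℝ := √(8 * C' * Real.exp 4) with hτ
  have hτ2 : τ ^ 2 = 8 * C' * Real.exp 4 := Real.sq_sqrt (by positivity)
  have hτ1 : 1 ≤ τ := by
    rw [hτ, Real.one_le_sqrt]
    have : (1 : ℝ) ≤ Real.exp 4 := Real.one_le_exp (by norm_num)
    nlinarith
  have hτ0 : 0 < τ := by linarith
  refine ⟨1 / (4 * τ), by positivity, fun d hd m hm => ?_⟩
  have hd' : (1 : ℝ) ≤ d := by exact_mod_cast hd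
  have hsd : 1 ≤ √(d : ℝ) := by rw [Real.one_le_sqrt]; exact hd'
  have hsd0 : 0 < √(d : ℝ) := by linarith
  have hsd2 : √(d : ℝ) ^ 2 = d := Real.sq_sqrt (by positivity)
  set R : ℕ := 16 * d with hR
  set T : ℝ := τ * √(d : ℝ) with hT
  have hT0 : 0 < T := by positivity
  set εr : ℝ := Real.exp (-(16 * d : ℝ)) * √(d : ℝ) * √((88 : ℝ) ^ d) with hεr
  have hεr0 : 0 ≤ εr := by positivity
  set br : ℝ := 2 * 88 ^ d * Real.exp (-(16 * d : ℝ)) with hbr
  have hbr0 : 0 ≤ br := by positivity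
  -- bad events
  set Bad : Site d → Set (Coupling d) := fun x => {J | ¬ GoodM m J x R T} with hBad
  have hPbad : ∀ x, couplingLaw d (Bad x) ≤ ENNReal.ofReal br := by
    intro x
    refine (hgood d m hm x R (8 * d) (by omega) (by omega) T hT0).trans
      (ENNReal.ofReal_le_ofReal ?_)
    have h88 := card_ball_16 hbl d x
    rw [← hR] at h88
    have hk : ((8 * d : ℕ) : ℝ) = 8 * d := by push_cast; ring
    have hT2 : T ^ (2 * (8 * d)) = (8 * C' * Real.exp 4 * d) ^ (8 * d) := by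
      rw [pow_mul, hT, mul_pow, hτ2, hsd2]
    rw [hT2, hk]
    have hpos : 0 < (8 * C' * Real.exp 4 * d) ^ (8 * d) := by positivity
    have e1 : Real.exp (2 * (8 * d : ℝ)) = (Real.exp 2) ^ (8 * d) := by
      rw [← Real.exp_nat_mul]; push_cast; ring_nf
    rw [e1, div_le_iff₀ hpos]
    have e2 : Real.exp (-(16 * d : ℝ)) * (Real.exp 2) ^ (8 * d) = 1 := by
      rw [← Real.exp_nat_mul, ← Real.exp_add]
      push_cast; ring_nf; simp
    have e3 : (8 * C' * Real.exp 4 * (d : ℝ)) = (C' * (8 * d)) * (Real.exp 2 * Real.exp 2) := by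
      rw [← Real.exp_add]; norm_num; ring
    calc 2 * ((ball x R).card : ℝ) * (C * (8 * d)) ^ (8 * d) * Real.exp 2 ^ (8 * d)
        ≤ 2 * 88 ^ d * (C' * (8 * d)) ^ (8 * d) * Real.exp 2 ^ (8 * d) := by gcongr
      _ = 2 * 88 ^ d * (Real.exp (-(16 * d : ℝ)) * (Real.exp 2) ^ (8 * d)) *
            ((C' * (8 * d)) ^ (8 * d) * Real.exp 2 ^ (8 * d)) := by rw [e2]; ring
      _ = br * (8 * C' * Real.exp 4 * (d : ℝ)) ^ (8 * d) := by
          rw [e3, mul_pow, mul_pow, hbr]; ring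
  -- numerical inequality
  have hnum : (180 : ℝ) ^ d * (80 * (εr + br)) ≤ 1 / 2 := by
    have hexp := exp16_pow d
    have hsq : √((88 : ℝ) ^ d) ≤ (10 : ℝ) ^ d := by
      rw [Real.sqrt_le_left (by positivity), ← pow_mul, mul_comm, pow_mul]
      exact pow_le_pow_left₀ (by norm_num) (by norm_num) d
    have hs2 : √(d : ℝ) ≤ 2 ^ d := by
      rw [Real.sqrt_le_left (by positivity)]
      have h1 : (d : ℝ) ≤ 2 ^ d := by exact_mod_cast (Nat.lt_two_pow_self (n := d)).le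
      have h2 : (1 : ℝ) ≤ 2 ^ d := one_le_pow₀ (by norm_num)
      nlinarith
    have h1 : (180 : ℝ) ^ d * εr ≤ (1 / 1000) ^ d := by
      calc (180 : ℝ) ^ d * εr ≤ 180 ^ d * ((1 / 7000000) ^ d * 2 ^ d * 10 ^ d) := by
            rw [hεr]; gcongr
        _ = (180 * (1 / 7000000 * 2 * 10)) ^ d := by rw [mul_pow, mul_pow, mul_pow]
        _ ≤ (1 / 1000) ^ d := pow_le_pow_left₀ (by norm_num) (by norm_num) d
    have h2 : (180 : ℝ) ^ d * br ≤ 2 * (1 / 400) ^ d := by
      calc (180 : ℝ) ^ d * br ≤ 180 ^ d * (2 * 88 ^ d * (1 / 7000000) ^ d) := by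
            rw [hbr]; gcongr
        _ = 2 * (180 * 88 * (1 / 7000000)) ^ d := by rw [mul_pow, mul_pow]; ring
        _ ≤ 2 * (1 / 400) ^ d := by
            gcongr
            norm_num
    have h3 : ((1 : ℝ) / 1000) ^ d ≤ 1 / 1000 := by
      calc ((1 : ℝ) / 1000) ^ d ≤ (1 / 1000) ^ 1 :=
            pow_le_pow_of_le_one (by norm_num) (by norm_num) hd
        _ = _ := by norm_num
    have h4 : ((1 : ℝ) / 400) ^ d ≤ 1 / 400 := by
      calc ((1 : ℝ) / 400) ^ d ≤ (1 / 400) ^ 1 :=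
            pow_le_pow_of_le_one (by norm_num) (by norm_num) hd
        _ = _ := by norm_num
    have h5 : (180 : ℝ) ^ d * (80 * (εr + br)) = 80 * ((180 : ℝ) ^ d * εr + (180 : ℝ) ^ d * br) := by
      ring
    rw [h5]
    linarith
  have hloc : ∀ x (J J' : Coupling d),
      (∀ e : (lat d).edgeSet, (∀ v ∈ e.1, v ∈ ball x R) → J e = J' e) →
      (J ∈ Bad x ↔ J' ∈ Bad x) := fun x J J' h => by
    constructor
    · intro hbad hG
      exact hbad (goodM_local m x R T J' J (fun e he => (h e he).symm) hG)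
    · intro hbad hG
      exact hbad (goodM_local m x R T J J' h hG)
  have h4 : (((180 ^ d : ℕ) : ℝ≥0∞)) * (80 * (ENNReal.ofReal εr + ENNReal.ofReal br)) ≤ 2⁻¹ := by
    rw [← ENNReal.ofReal_add hεr0 hbr0]
    have e1 : ((180 ^ d : ℕ) : ℝ≥0∞) = ENNReal.ofReal ((180 : ℝ) ^ d) := by
      rw [← ENNReal.ofReal_natCast]; push_cast; rfl
    have e2 : (80 : ℝ≥0∞) = ENNReal.ofReal 80 := by norm_num
    rw [e1, e2, ← ENNReal.ofReal_mul (by norm_num), ← ENNReal.ofReal_mul (by positivity)]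
    calc ENNReal.ofReal ((180 : ℝ) ^ d * (80 * (εr + br))) ≤ ENNReal.ofReal (1 / 2) :=
          ENNReal.ofReal_le_ofReal hnum
      _ = 2⁻¹ := by
          rw [one_div, ENNReal.ofReal_inv_of_pos (by norm_num)]; norm_num
  have h3 : ∀ x : Site d, (ball x (2 * R + 1)).card ≤ 180 ^ d := fun x => card_ball_33 hbl d hd x
  refine ⟨KK0 R Bad (ENNReal.ofReal εr), fun x => ⟨KK0_nonneg x,
    KK0_int (180 ^ d) hloc hPbad h3 h4 x⟩, ?_⟩
  have hfin : ∀ᵐ J ∂(couplingLaw d), ∀ x, SK R Bad (ENNReal.ofReal εr) x J ≠ ∞ := by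
    rw [ae_all_iff]
    intro x
    have h5 := SK_int (180 ^ d) hloc hPbad h3 h4 x
    filter_upwards [ae_lt_top (meas_SK hloc x) (ne_top_of_le_ne_top (by simp) h5)] with J hJ
    exact hJ.ne
  filter_upwards [hfin] with J hJ β hβ0 hβ s hs h
  have hTβ : 4 * T * β ≤ 1 := by
    rw [hT]
    have : β * (4 * τ * √(d : ℝ)) ≤ 1 := by
      have h1 := mul_le_mul_of_nonneg_right hβ (show 0 ≤ 4 * τ * √(d : ℝ) by positivity)
      have h2 : 1 / (4 * τ) / √(d : ℝ) * (4 * τ * √(d : ℝ)) = 1 := by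
        field_simp
      linarith
    linarith
  set p : Site d → ℝ := fun x => if J ∈ Bad x then 1 else εr with hp
  have hinf : ∀ (x : Site d) (Λ : Finset (Site d)), x ∈ Λ → ∀ ω ω' : Site d → Bool,
      (∀ y ∈ ball x R, y ∉ Λ → ω y = ω' y) →
      |gE (cpl β m s J) h Λ ω (ind x) - gE (cpl β m s J) h Λ ω' (ind x)| ≤ p x := by
    intro x Λ hxΛ ω ω' hω
    have hu01 : Unit01 (ind x) := by
      intro σ; unfold ind; split_ifs <;> norm_num
    by_cases hbad : J ∈ Bad x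
    · simp only [hp, hbad, if_true]
      have h1 := (sp (cpl β m s J) h).unit Λ ω _ hu01
      have h2 := (sp (cpl β m s J) h).unit Λ ω' _ hu01
      rw [abs_le]; constructor <;> linarith [h1.1, h1.2, h2.1, h2.2]
    · simp only [hp, hbad, if_false]
      have hG : GoodM m J x R T := by
        by_contra hcon; exact hbad hcon
      have hGW := goodW_of m J x R T hT0 hG β hβ0 hTβ s hs
      refine (infl hi t_DIFF (cpl β m s J) h x R hGW β hβ0.le
        (fun y z => mat_le β hβ0.le m hm s hs J y z) Λ hxΛ ω ω' hω).trans ?_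
      have h88 := card_ball_16 hbl d x
      rw [← hR] at h88
      have e1 : Real.exp (-(R : ℝ)) = Real.exp (-(16 * d : ℝ)) := by
        rw [hR]; push_cast; rfl
      rw [e1, hεr]
      have e2 : 4 * β * d ≤ √(d : ℝ) := by
        have hβd : β * √(d : ℝ) ≤ 1 / (4 * τ) := by
          rw [le_div_iff₀ hsd0] at hβ; exact hβ
        have h3 : 1 / (4 * τ) ≤ 1 / 4 := by
          apply one_div_le_one_div_of_le (by norm_num); linarith
        have h4 : β * √(d : ℝ) ≤ 1 / 4 := hβd.trans h3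
        calc 4 * β * d = 4 * (β * √(d : ℝ)) * √(d : ℝ) := by
              nth_rewrite 1 [← hsd2]; ring
          _ ≤ 4 * (1 / 4) * √(d : ℝ) := by gcongr
          _ = √(d : ℝ) := by ring
      gcongr
  have hpe : ∀ x, ENNReal.ofReal (p x) = chainP Bad (ENNReal.ofReal εr) J x := by
    intro x
    unfold chainP
    simp only [hp]
    split_ifs <;> simp
  intro A Λ f hf hfA n ω ω' hA
  exact decay (sp (cpl β m s J) h) hd hR J p hinf hpe hJ A f hf hfA Λ n ω ω' hA

end Pool.Agent.Helper79K9.EA
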