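import Pool.Agent.Helper79K9.EA.Basic
import Pool.Agent.H47R2.EA.REDUCE
import Pool.Agent.H47R2.EA.INF

/-!
# The finite-volume measure as a finite Ising average, and the influence bound on a good ball
-/

set_option autoImplicit false

namespace Pool.Agent.Helper79K9.EA

open Pool.H47EA hiding ham Zp gE IsGibbs ham_eq_sum ham_glue

variable {d : ℕ}

/-- the symmetric matrix of the couplings -/
noncomputable def mat (W : Sym2 (Site d) → ℝ) (x y : Site d) : ℝ :=
  if y ∈ nbr x then W s(x, y) else 0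

theorem mem_nbr_comm (x y : Site d) : y ∈ nbr x ↔ x ∈ nbr y := by
  rw [mem_nbr_iff, mem_nbr_iff, dist1_comm']

theorem mat_comm (W : Sym2 (Site d) → ℝ) (x y : Site d) : mat W x y = mat W y x := by
  unfold mat
  by_cases h : y ∈ nbr x
  · rw [if_pos h, if_pos ((mem_nbr_comm x y).1 h), Sym2.eq_swap]
  · rw [if_neg h, if_neg (fun h' => h ((mem_nbr_comm x y).2 h'))]

theorem ham_eq_sum (W : Sym2 (Site d) → ℝ) (Λ : Finset (Site d)) (σ : Site d → Bool) :
    ∑ e ∈ edgesOf Λ, W e * spin σ e = ∑ x ∈ Λ, ∑ y ∈ nbr x,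
      (if y ∈ Λ then mat W x y * sg (σ x) * sg (σ y) / 2 else mat W x y * sg (σ x) * sg (σ y)) := by
  rw [edgesOf_eq, ← Finset.sum_sigma (s := Λ) (t := fun x => nbr x)
    (f := fun p : (_ : Site d) × Site d =>
      (if p.2 ∈ Λ then mat W p.1 p.2 * sg (σ p.1) * sg (σ p.2) / 2
        else mat W p.1 p.2 * sg (σ p.1) * sg (σ p.2)))]
  refine Finset.sum_image' _ ?_
  rintro ⟨x, y⟩ hp
  rw [Finset.mem_sigma] at hp
  obtain ⟨hx, hy⟩ := hp
  dsimp only at hx hy ⊢
  have hW : W s(x, y) * spin σ s(x, y) = mat W x y * sg (σ x) * sg (σ y) := by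
    unfold mat
    rw [if_pos hy, spin_mk]
    ring
  have hxy : x ≠ y := by
    rintro rfl
    rw [mem_nbr_iff] at hy
    simp [dist1] at hy
  by_cases hyΛ : y ∈ Λ
  · have hfib : (Finset.filter (fun j : (_ : Site d) × Site d => s(j.1, j.2) = s(x, y))
        (Λ.sigma (fun x => nbr x))) = {⟨x, y⟩, ⟨y, x⟩} := by
      ext ⟨u, v⟩
      simp only [Finset.mem_filter, Finset.mem_sigma, Finset.mem_insert, Finset.mem_singleton,
        Sigma.mk.injEq, heq_eq_eq, Sym2.eq_iff]
      constructor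
      · rintro ⟨_, h⟩
        exact h
      · rintro (⟨rfl, rfl⟩ | ⟨rfl, rfl⟩)
        · exact ⟨⟨hx, hy⟩, Or.inl ⟨rfl, rfl⟩⟩
        · refine ⟨⟨hyΛ, ?_⟩, Or.inr ⟨rfl, rfl⟩⟩
          exact (mem_nbr_comm _ _).1 hy
    rw [hfib, Finset.sum_pair]
    · simp only [hyΛ, hx, if_true]
      rw [hW, mat_comm W y x]
      ring
    · intro h
      rw [Sigma.mk.injEq] at h
      exact hxy h.1
  · have hfib : (Finset.filter (fun j : (_ : Site d) × Site d => s(j.1, j.2) = s(x, y))
        (Λ.sigma (fun x => nbr x))) = {⟨x, y⟩} := by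
      ext ⟨u, v⟩
      simp only [Finset.mem_filter, Finset.mem_sigma, Finset.mem_singleton,
        Sigma.mk.injEq, heq_eq_eq, Sym2.eq_iff]
      constructor
      · rintro ⟨⟨hu, _⟩, (h | ⟨rfl, rfl⟩)⟩
        · exact h
        · exact absurd hu hyΛ
      · rintro ⟨rfl, rfl⟩
        exact ⟨⟨hx, hy⟩, Or.inl ⟨rfl, rfl⟩⟩
    rw [hfib, Finset.sum_singleton]
    simp only [hyΛ, if_false]
    exact hW

theorem ham_glue (W : Sym2 (Site d) → ℝ) (h0 : Site d → ℝ) (Λ : Finset (Site d))
    (ω : Site d → Bool) (η : {x // x ∈ Λ} → Bool) :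
    ham W h0 Λ (glue Λ η ω) =
      (∑ y : {x // x ∈ Λ}, ∑ z : {x // x ∈ Λ}, mat W y.1 z.1 * sg (η y) * sg (η z)) / 2 +
      ∑ y : {x // x ∈ Λ}, (∑ z ∈ nbr y.1 \ Λ, mat W y.1 z * sg (ω z) + h0 y.1) * sg (η y) := by
  have hin : ∀ y : {x // x ∈ Λ}, η y = glue Λ η ω y.1 := by
    intro y
    unfold glue
    rw [dif_pos y.2]
  have hout : ∀ z, z ∉ Λ → ω z = glue Λ η ω z := by
    intro z hz
    unfold glue
    rw [dif_neg hz]
  set σ := glue Λ η ω with hσ
  have e1 : (∑ y : {x // x ∈ Λ}, ∑ z : {x // x ∈ Λ}, mat W y.1 z.1 * sg (η y) * sg (η z)) =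
      ∑ y ∈ Λ, ∑ z ∈ Λ, mat W y z * sg (σ y) * sg (σ z) := by
    rw [← Finset.sum_coe_sort Λ]
    refine Finset.sum_congr rfl fun y _ => ?_
    rw [← Finset.sum_coe_sort Λ]
    refine Finset.sum_congr rfl fun z _ => ?_
    rw [hin y, hin z]
  have e2 : (∑ y : {x // x ∈ Λ}, (∑ z ∈ nbr y.1 \ Λ, mat W y.1 z * sg (ω z) + h0 y.1) * sg (η y)) =
      ∑ y ∈ Λ, (∑ z ∈ nbr y \ Λ, mat W y z * sg (σ y) * sg (σ z) + h0 y * sg (σ y)) := by
    rw [← Finset.sum_coe_sort Λ]
    refine Finset.sum_congr rfl fun y _ => ?_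
    rw [add_mul, Finset.sum_mul, hin y]
    congr 1
    refine Finset.sum_congr rfl fun z hz => ?_
    rw [hout z (Finset.mem_sdiff.1 hz).2]
    ring
  unfold ham
  have e5 : ∑ y ∈ Λ, (∑ z ∈ nbr y \ Λ, mat W y z * sg (σ y) * sg (σ z) + h0 y * sg (σ y)) =
      ∑ y ∈ Λ, ∑ z ∈ nbr y \ Λ, mat W y z * sg (σ y) * sg (σ z) + ∑ y ∈ Λ, h0 y * sg (σ y) :=
    Finset.sum_add_distrib
  rw [e1, e2, e5, ham_eq_sum, ← add_assoc]
  congr 1
  rw [Finset.sum_div, ← Finset.sum_add_distrib]
  refine Finset.sum_congr rfl fun x hx => ?_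
  have e3 : (∑ z ∈ Λ, mat W x z * sg (σ x) * sg (σ z)) / 2 =
      ∑ z ∈ (nbr x).filter (fun z => z ∈ Λ), mat W x z * sg (σ x) * sg (σ z) / 2 := by
    rw [Finset.sum_div]
    symm
    refine Finset.sum_subset ?_ ?_
    · intro z hz
      exact (Finset.mem_filter.1 hz).2
    · intro z hz hz'
      have : mat W x z = 0 := by
        unfold mat
        rw [if_neg (fun h => hz' (Finset.mem_filter.2 ⟨h, hz⟩))]
      rw [this]
      ring
  have e4 : nbr x \ Λ = (nbr x).filter (fun z => ¬ z ∈ Λ) := by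
    ext z
    rw [Finset.mem_sdiff, Finset.mem_filter]
  rw [e3, e4, ← Finset.sum_filter_add_sum_filter_not (nbr x) (fun z => z ∈ Λ)
    (fun y => if y ∈ Λ then mat W x y * sg (σ x) * sg (σ y) / 2
      else mat W x y * sg (σ x) * sg (σ y))]
  congr 1
  · refine Finset.sum_congr rfl fun z hz => ?_
    rw [if_pos (Finset.mem_filter.1 hz).2]
  · refine Finset.sum_congr rfl fun z hz => ?_
    rw [if_neg (Finset.mem_filter.1 hz).2]

theorem reduce (W : Sym2 (Site d) → ℝ) (h0 : Site d → ℝ) (Λ : Finset (Site d))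
    (ω : Site d → Bool) (f : (Site d → Bool) → ℝ) :
    gE W h0 Λ ω f =
      av (U := {x // x ∈ Λ})
        (fun η => Real.exp ((∑ y, ∑ z, mat W y.1 z.1 * sg (η y) * sg (η z)) / 2))
        (fun y => ∑ z ∈ nbr y.1 \ Λ, mat W y.1 z * sg (ω z) + h0 y.1)
        (fun η => f (glue Λ η ω)) := by
  have key : ∀ η : {x // x ∈ Λ} → Bool, Real.exp (ham W h0 Λ (glue Λ η ω)) =
      Wt (U := {x // x ∈ Λ})
        (fun η => Real.exp ((∑ y, ∑ z, mat W y.1 z.1 * sg (η y) * sg (η z)) / 2))
        (fun y => ∑ z ∈ nbr y.1 \ Λ, mat W y.1 z * sg (ω z) + h0 y.1) η := by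
    intro η
    unfold Wt
    rw [← Real.exp_add, ham_glue]
  unfold gE Zp av Zf
  congr 1
  · exact Finset.sum_congr rfl fun η _ => by rw [← key η]
  · exact Finset.sum_congr rfl fun η _ => by rw [← key η]

/-- bounds for the quadratic form of the couplings in the ball and its conjugate by
`exp(-dist(x,·))` -/
def GoodW (W : Sym2 (Site d) → ℝ) (x : Site d) (R : ℕ) : Prop :=
  (∀ u v : Site d → ℝ, |∑ y ∈ ball x R, ∑ z ∈ ball x R, u y * mat W y z * v z| ≤
      1 / 4 * √(∑ y ∈ ball x R, u y ^ 2) * √(∑ y ∈ ball x R, v y ^ 2)) ∧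
  (∀ u v : Site d → ℝ, |∑ y ∈ ball x R, ∑ z ∈ ball x R,
        u y * (Real.exp ((dist1 x z : ℝ) - (dist1 x y : ℝ)) * mat W y z) * v z| ≤
      1 / 4 * √(∑ y ∈ ball x R, u y ^ 2) * √(∑ y ∈ ball x R, v y ^ 2))

open InfAux in
/-- the influence bound in a finite volume contained in the ball -/
theorem inner (hi : St_ISING) (hd : St_DIFF) (W : Sym2 (Site d) → ℝ) (h0 : Site d → ℝ)
    (x : Site d) (R : ℕ) (hg : GoodW W x R) (β : ℝ) (hβ : 0 ≤ β) (hW : ∀ y z, |mat W y z| ≤ β)
    (L : Finset (Site d)) (hx : x ∈ L) (hLB : L ⊆ ball x R) (τ τ' : Site d → Bool)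
    (hτ : ∀ y ∈ ball x R, y ∉ L → τ y = τ' y) :
    |gE W h0 L τ (ind x) - gE W h0 L τ' (ind x)| ≤
      Real.exp (-(R : ℝ)) * (4 * β * d) * √((ball x R).card : ℝ) := by
  classical
  set g : ({y // y ∈ L} → Bool) → ℝ := fun η =>
    Real.exp ((∑ y, ∑ z, mat W y.1 z.1 * sg (η y) * sg (η z)) / 2) with hgd
  set hh : (Site d → Bool) → {y // y ∈ L} → ℝ := fun τ y =>
    ∑ z ∈ nbr y.1 \ L, mat W y.1 z * sg (τ z) + h0 y.1 with hhd
  set e : {y // y ∈ L} → ℝ := Pi.single ⟨x, hx⟩ 1 with he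
  set w : {y // y ∈ L} → ℝ := fun y => Real.exp (-(dist1 x y.1 : ℝ)) with hw
  have hgpos : ∀ η, 0 < g η := fun η => Real.exp_pos _
  -- the averages
  have hZ : ∀ h : {y // y ∈ L} → ℝ, 0 < Zf g h := by
    intro h
    unfold Zf Wt
    exact Finset.sum_pos (fun σ _ => mul_pos (hgpos σ) (Real.exp_pos _)) Finset.univ_nonempty
  have hav : ∀ τ : Site d → Bool, gE W h0 L τ (ind x) = (1 + av g (hh τ) (lin e)) / 2 := by
    intro τ
    rw [reduce W h0 L τ (ind x)]
    show av g (hh τ) (fun η => ind x (glue L η τ)) = _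
    have h1 : (fun η : {y // y ∈ L} → Bool => ind x (glue L η τ)) = fun η => (1 + lin e η) / 2 := by
      funext η
      have h2 : lin e η = sg (η ⟨x, hx⟩) := by
        unfold lin
        rw [Finset.sum_eq_single ⟨x, hx⟩]
        · rw [he]; simp
        · intro y _ hy
          rw [he, Pi.single_eq_of_ne hy, zero_mul]
        · intro h; exact absurd (Finset.mem_univ _) h
      rw [h2]
      unfold ind glue sg
      simp only [hx, dif_pos]
      split_ifs <;> norm_num
    rw [h1]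
    unfold av
    have h3 : ∑ σ, Wt g (hh τ) σ * ((1 + lin e σ) / 2) =
        (Zf g (hh τ) + ∑ σ, Wt g (hh τ) σ * lin e σ) / 2 := by
      unfold Zf
      rw [← Finset.sum_add_distrib, Finset.sum_div]
      exact Finset.sum_congr rfl fun σ _ => by ring
    rw [h3]
    have := (hZ (hh τ)).ne'
    field_simp
  -- the covariance bound
  have hcov : CovLe g w 2 := by
    refine hi {y // y ∈ L} (fun y z => mat W y.1 z.1) w (1 / 4) ?_ ?_ ?_ ?_ ?_ ?_
    · intro y z
      exact mat_comm W _ _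
    · intro y; exact Real.exp_pos _
    · norm_num
    · norm_num
    · intro a b
      have h1 := form_restrict (ball x R) L hLB (fun y z => mat W y z) (1 / 4) hg.1 a b
      have h3 : nrmI (fun _ : {y // y ∈ L} => (1 : ℝ)) a = √(∑ y, a y ^ 2) := by
        unfold nrmI; simp
      have h4 : nrmW (fun _ : {y // y ∈ L} => (1 : ℝ)) b = √(∑ y, b y ^ 2) := by
        unfold nrmW; simp
      rw [h3, h4]
      exact h1
    · intro a b
      have h1 := form_restrict (ball x R) L hLB
        (fun y z => Real.exp ((dist1 x z : ℝ) - (dist1 x y : ℝ)) * mat W y z) (1 / 4) hg.2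
        (fun y => a y / w y) (fun z => b z * w z)
      have h2 : ∑ y : {y // y ∈ L}, ∑ z : {y // y ∈ L}, a y * mat W y.1 z.1 * b z =
          ∑ y : {y // y ∈ L}, ∑ z : {y // y ∈ L}, a y / w y *
            (Real.exp ((dist1 x z.1 : ℝ) - (dist1 x y.1 : ℝ)) * mat W y.1 z.1) * (b z * w z) := by
        refine Finset.sum_congr rfl fun y _ => ?_
        refine Finset.sum_congr rfl fun z _ => ?_
        have h5 : Real.exp ((dist1 x z.1 : ℝ) - (dist1 x y.1 : ℝ)) * w z = w y := by
          simp only [hw]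
          rw [← Real.exp_add]
          congr 1
          ring
        have h6 : w y ≠ 0 := (Real.exp_pos _).ne'
        calc a y * mat W y.1 z.1 * b z = (a y / w y * mat W y.1 z.1 * b z * w y) := by
              field_simp
          _ = _ := by rw [← h5]; ring
      rw [h2]
      exact h1
  -- the bound
  have hdiff := hd {y // y ∈ L} g w 2 hgpos hcov (hh τ) (hh τ') e
  have hI : nrmI w e = 1 := by
    unfold nrmI
    have : ∑ y, (e y / w y) ^ 2 = 1 := by
      rw [Finset.sum_eq_single ⟨x, hx⟩]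
      · rw [he, hw]; simp [InfAux.dist_self]
      · intro y _ hy
        rw [he, Pi.single_eq_of_ne hy]; simp
      · intro h; exact absurd (Finset.mem_univ _) h
    rw [this, Real.sqrt_one]
  have hE0 : 0 ≤ Real.exp (-(R : ℝ)) * (4 * β * d) := by positivity
  have hWn : nrmW w (fun y => hh τ y - hh τ' y) ≤
      Real.exp (-(R : ℝ)) * (4 * β * d) * √((ball x R).card : ℝ) := by
    unfold nrmW
    have hpt : ∀ y : {y // y ∈ L}, ((hh τ y - hh τ' y) * w y) ^ 2 ≤
        (Real.exp (-(R : ℝ)) * (4 * β * d)) ^ 2 := by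
      intro y
      rw [← sq_abs]
      refine pow_le_pow_left₀ (abs_nonneg _) ?_ 2
      have hdel : hh τ y - hh τ' y =
          ∑ z ∈ nbr y.1 \ L, mat W y.1 z * (sg (τ z) - sg (τ' z)) := by
        simp only [hhd]
        rw [add_sub_add_right_eq_sub, ← Finset.sum_sub_distrib]
        exact Finset.sum_congr rfl fun z _ => by ring
      by_cases hout : ∃ z ∈ nbr y.1 \ L, z ∉ ball x R
      · obtain ⟨z, hz, hzb⟩ := hout
        have hz1 : dist1 y.1 z = 1 := by
          have := (Finset.mem_sdiff.1 hz).1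
          unfold nbr at this
          exact (Finset.mem_filter.1 this).2
        have hyR : R ≤ dist1 x y.1 := by
          rw [mem_ball] at hzb
          have := InfAux.dist_tri x y.1 z
          omega
        have hwy : w y ≤ Real.exp (-(R : ℝ)) := by
          simp only [hw]
          apply Real.exp_le_exp.2
          have : (R : ℝ) ≤ (dist1 x y.1 : ℝ) := by exact_mod_cast hyR
          linarith
        have hs : |∑ z ∈ nbr y.1 \ L, mat W y.1 z * (sg (τ z) - sg (τ' z))| ≤ β * (4 * d) := by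
          calc |∑ z ∈ nbr y.1 \ L, mat W y.1 z * (sg (τ z) - sg (τ' z))| ≤
                ∑ z ∈ nbr y.1 \ L, |mat W y.1 z * (sg (τ z) - sg (τ' z))| :=
                Finset.abs_sum_le_sum_abs _ _
            _ ≤ ∑ z ∈ nbr y.1 \ L, (β * 2 : ℝ) := by
                refine Finset.sum_le_sum fun z _ => ?_
                rw [abs_mul]
                have h2 : |sg (τ z) - sg (τ' z)| ≤ 2 := by
                  refine (abs_sub _ _).trans ?_
                  rw [abs_sg, abs_sg]; norm_num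
                exact mul_le_mul (hW _ _) h2 (abs_nonneg _) hβ
            _ = ((nbr y.1 \ L).card : ℝ) * (β * 2) := by rw [Finset.sum_const, nsmul_eq_mul]
            _ ≤ (2 * d : ℝ) * (β * 2) := by
                have h1 : (nbr y.1 \ L).card ≤ 2 * d :=
                  (Finset.card_le_card Finset.sdiff_subset).trans (nbr_card y.1)
                have h2 : ((nbr y.1 \ L).card : ℝ) ≤ 2 * d := by exact_mod_cast h1
                exact mul_le_mul_of_nonneg_right h2 (by positivity)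
            _ = β * (4 * d) := by ring
        rw [abs_mul, hdel, abs_of_pos (Real.exp_pos _ : 0 < w y)]
        calc |∑ z ∈ nbr y.1 \ L, mat W y.1 z * (sg (τ z) - sg (τ' z))| * w y ≤
              β * (4 * d) * Real.exp (-(R : ℝ)) := by
              refine mul_le_mul hs hwy (Real.exp_pos _).le (by positivity)
          _ = _ := by ring
      · push Not at hout
        have : hh τ y - hh τ' y = 0 := by
          rw [hdel, Finset.sum_eq_zero]
          intro z hz
          rw [hτ z (hout z hz) (Finset.mem_sdiff.1 hz).2]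
          ring
        rw [this, zero_mul, abs_zero]
        exact hE0
    calc √(∑ y, ((hh τ y - hh τ' y) * w y) ^ 2) ≤
          √(((ball x R).card : ℝ) * (Real.exp (-(R : ℝ)) * (4 * β * d)) ^ 2) := by
          refine Real.sqrt_le_sqrt ?_
          refine (Finset.sum_le_sum fun y _ => hpt y).trans ?_
          rw [Finset.sum_const, nsmul_eq_mul]
          refine mul_le_mul_of_nonneg_right ?_ (sq_nonneg _)
          have : (Finset.univ : Finset {y // y ∈ L}).card ≤ (ball x R).card := by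
            rw [Finset.card_univ, Fintype.card_coe]
            exact Finset.card_le_card hLB
          exact_mod_cast this
      _ = Real.exp (-(R : ℝ)) * (4 * β * d) * √((ball x R).card : ℝ) := by
          rw [Real.sqrt_mul (Nat.cast_nonneg _), Real.sqrt_sq hE0]
          ring
  rw [hav τ, hav τ']
  have e1 : (1 + av g (hh τ) (lin e)) / 2 - (1 + av g (hh τ') (lin e)) / 2 =
      (av g (hh τ) (lin e) - av g (hh τ') (lin e)) / 2 := by ring
  rw [e1, abs_div, abs_of_pos (by norm_num : (0 : ℝ) < 2), div_le_iff₀ (by norm_num : (0 : ℝ) < 2)]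
  rw [hI] at hdiff
  linarith

open InfAux in
theorem infl (hi : St_ISING) (hd : St_DIFF) (W : Sym2 (Site d) → ℝ) (h0 : Site d → ℝ)
    (x : Site d) (R : ℕ) (hg : GoodW W x R) (β : ℝ) (hβ : 0 ≤ β) (hW : ∀ y z, |mat W y z| ≤ β)
    (Λ : Finset (Site d)) (hx : x ∈ Λ) (ω ω' : Site d → Bool)
    (hω : ∀ y ∈ ball x R, y ∉ Λ → ω y = ω' y) :
    |gE W h0 Λ ω (ind x) - gE W h0 Λ ω' (ind x)| ≤
      Real.exp (-(R : ℝ)) * (4 * β * d) * √((ball x R).card : ℝ) := by
  classical
  set L : Finset (Site d) := Λ.filter (fun y => y ∈ ball x R) with hL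
  have hLΛ : L ⊆ Λ := Finset.filter_subset _ _
  have hLB : L ⊆ ball x R := fun y hy => (Finset.mem_filter.1 hy).2
  have hxL : x ∈ L := Finset.mem_filter.2 ⟨hx, by rw [mem_ball, InfAux.dist_self]; exact Nat.zero_le _⟩
  set ε := Real.exp (-(R : ℝ)) * (4 * β * d) * √((ball x R).card : ℝ) with hε
  have hinner : ∀ (η η' : Λ → Bool),
      |gE W h0 L (glue Λ η ω) (ind x) - gE W h0 L (glue Λ η' ω') (ind x)| ≤ ε := by
    intro η η'
    refine inner hi hd W h0 x R hg β hβ hW L hxL hLB _ _ fun y hy hyL => ?_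
    have hyΛ : y ∉ Λ := fun h => hyL (Finset.mem_filter.2 ⟨h, hy⟩)
    simp only [glue, hyΛ, dif_neg, not_false_iff]
    exact hω y hy hyΛ
  have b2 := (sp W h0).const Λ ω
  have b3 := (sp W h0).mono Λ ω
  have b6 := (sp W h0).cons Λ ω
  have b2' := (sp W h0).const Λ ω'
  have b3' := (sp W h0).mono Λ ω'
  have b6' := (sp W h0).cons Λ ω'
  rw [b6 L hLΛ (ind x), b6' L hLΛ (ind x)]
  set X := gE W h0 Λ ω (fun τ => gE W h0 L τ (ind x)) with hX
  have h1 : ∀ η' : Λ → Bool, |X - gE W h0 L (glue Λ η' ω') (ind x)| ≤ ε := by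
    intro η'
    set c := gE W h0 L (glue Λ η' ω') (ind x) with hc
    have u1 : X ≤ c + ε := by
      calc X ≤ gE W h0 Λ ω (fun _ => c + ε) := b3 _ _ fun η => by
            have := (abs_le.1 (hinner η η')).2
            show gE W h0 L (glue Λ η ω) (ind x) ≤ c + ε
            linarith
        _ = c + ε := b2 _
    have u2 : c - ε ≤ X := by
      calc c - ε = gE W h0 Λ ω (fun _ => c - ε) := (b2 _).symm
        _ ≤ X := b3 _ _ fun η => by
            have := (abs_le.1 (hinner η η')).1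
            show c - ε ≤ gE W h0 L (glue Λ η ω) (ind x)
            linarith
    rw [abs_le]
    constructor <;> linarith
  set Y := gE W h0 Λ ω' (fun τ => gE W h0 L τ (ind x)) with hY
  have v1 : X - ε ≤ Y := by
    calc X - ε = gE W h0 Λ ω' (fun _ => X - ε) := (b2' _).symm
      _ ≤ Y := b3' _ _ fun η => by
          have := (abs_le.1 (h1 η)).2
          show X - ε ≤ gE W h0 L (glue Λ η ω') (ind x)
          linarith
  have v2 : Y ≤ X + ε := by
    calc Y ≤ gE W h0 Λ ω' (fun _ => X + ε) := b3' _ _ fun η => by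
          have := (abs_le.1 (h1 η)).1
          show gE W h0 L (glue Λ η ω') (ind x) ≤ X + ε
          linarith
      _ = X + ε := b2' _
  rw [abs_le]
  constructor <;> linarith

end Pool.Agent.Helper79K9.EA
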