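import Pool.Agent.Helper79K9.EA.Susc

/-!
# Locality of the Gibbs state as a function of the field and of the weights
-/

set_option autoImplicit false

open MeasureTheory Filter
open scoped ENNReal Topology

namespace Pool.Agent.Helper79K9.EA

open Pool.H47EA hiding ham Zp gE IsGibbs Forget meas_ham meas_gE gE_indicator_mem ham_eq_sum ham_glue

variable {d : ℕ}

theorem gE_param {W W' : Sym2 (Site d) → ℝ} {h h' : Site d → ℝ} (Λ : Finset (Site d))
    (hW : ∀ e ∈ edgesOf Λ, W e = W' e) (hh : ∀ x ∈ Λ, h x = h' x) (ω : Site d → Bool)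
    (f : (Site d → Bool) → ℝ) : gE W h Λ ω f = gE W' h' Λ ω f := by
  have h1 : ∀ σ : Site d → Bool, ham W h Λ σ = ham W' h' Λ σ := by
    intro σ
    unfold ham
    congr 1
    · exact Finset.sum_congr rfl fun e he => by rw [hW e he]
    · exact Finset.sum_congr rfl fun x hx => by rw [hh x hx]
  unfold gE Zp
  simp only [h1]

theorem int_diff {π π' : Measure (Site d → Bool)} [IsProbabilityMeasure π]
    [IsProbabilityMeasure π'] {G : (Site d → Bool) → ℝ} (hG : Measurable G)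
    (hb : ∀ ω, |G ω| ≤ 1) {δ : ℝ} (hδ : ∀ ω ω', |G ω - G ω'| ≤ δ) :
    |∫ ω, G ω ∂π - ∫ ω, G ω ∂π'| ≤ δ := by
  have hi : ∀ (μ : Measure (Site d → Bool)) [IsProbabilityMeasure μ], Integrable G μ := by
    intro μ _
    exact Integrable.of_bound hG.aestronglyMeasurable 1 (ae_of_all _ fun ω => by
      rw [Real.norm_eq_abs]; exact hb ω)
  have key : ∀ (μ μ' : Measure (Site d → Bool)) [IsProbabilityMeasure μ]
      [IsProbabilityMeasure μ'], ∫ ω, G ω ∂μ ≤ ∫ ω, G ω ∂μ' + δ := by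
    intro μ μ' _ _
    have h1 : ∀ ω', ∫ ω, G ω ∂μ ≤ G ω' + δ := by
      intro ω'
      have h2 : ∫ ω, G ω ∂μ ≤ ∫ _, (G ω' + δ) ∂μ :=
        integral_mono (hi μ) (integrable_const _) fun ω => by
          have := (abs_le.1 (hδ ω ω')).2
          show G ω ≤ G ω' + δ
          linarith
      simpa using h2
    have h3 : ∫ _, (∫ ω, G ω ∂μ) ∂μ' ≤ ∫ ω', (G ω' + δ) ∂μ' :=
      integral_mono (integrable_const _) ((hi μ').add (integrable_const _)) h1
    rw [integral_add (hi μ') (integrable_const _)] at h3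
    simpa using h3
  rw [abs_le]
  constructor
  · linarith [key π' π]
  · linarith [key π π']

theorem local_params (β : ℝ) (m : Sym2 (Site d) → ℝ) (J : Coupling d) (K : Site d → ℝ)
    {s s' h h' : Site d → ℝ} (hD : Decays (gE (cpl β m s J) h) K)
    {π π' : Measure (Site d → Bool)} (hπ : IsGibbs (cpl β m s J) h π)
    (hπ' : IsGibbs (cpl β m s' J) h' π') (A : Finset (Site d)) (f : (Site d → Bool) → ℝ)
    (hf : Unit01 f) (hfA : LocalOn A f) (n : ℕ)
    (hag : ∀ x, (∃ a ∈ A, dist1 a x ≤ n) → s x = s' x ∧ h x = h' x) :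
    |∫ σ, f σ ∂π - ∫ σ, f σ ∂π'| ≤ (∑ a ∈ A, K a) * Real.exp (-((n : ℝ) / (8 * d))) := by
  classical
  have i1 := hπ.1
  have i2 := hπ'.1
  have mf := meas_local hfA
  have bf : ∀ x, |f x| ≤ 1 := fun x => by rw [abs_of_nonneg (hf x).1]; exact (hf x).2
  set Λ : Finset (Site d) := if n = 0 then ∅ else A.biUnion fun a => ball a (n - 1) with hΛ
  have hmem : ∀ y ∈ Λ, ∃ a ∈ A, dist1 a y + 1 ≤ n := by
    intro y hy
    by_cases hn : n = 0
    · rw [hΛ, if_pos hn] at hy
      simp at hy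
    · rw [hΛ, if_neg hn] at hy
      obtain ⟨a, ha, hay⟩ := Finset.mem_biUnion.1 hy
      have := (mem_ball_iff a y _).1 hay
      exact ⟨a, ha, by omega⟩
  have hnot : ∀ a ∈ A, ∀ y, y ∉ Λ → n ≤ dist1 a y := by
    intro a ha y hy
    by_contra hlt
    have hn : n ≠ 0 := by omega
    apply hy
    rw [hΛ, if_neg hn, Finset.mem_biUnion]
    exact ⟨a, ha, (mem_ball_iff a y _).2 (by omega)⟩
  have hgE : ∀ ω, gE (cpl β m s' J) h' Λ ω f = gE (cpl β m s J) h Λ ω f := by
    intro ω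
    refine gE_param Λ ?_ ?_ ω f
    · intro e he
      obtain ⟨x, hx, y, hy, rfl⟩ := Basic.mem_edgesOf.mp he
      obtain ⟨a, ha, hax⟩ := hmem x hx
      have h1 := (hag x ⟨a, ha, by omega⟩).1
      have h2 := (hag y ⟨a, ha, by
        have := InfAux.dist_tri a x y
        omega⟩).1
      show β * m s(x, y) * Jc J x y * s' x * s' y = β * m s(x, y) * Jc J x y * s x * s y
      rw [h1, h2]
    · intro x hx
      obtain ⟨a, ha, hax⟩ := hmem x hx
      exact ((hag x ⟨a, ha, by omega⟩).2).symm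
  rw [← dlr _ _ hπ Λ f mf 1 bf, ← dlr _ _ hπ' Λ f mf 1 bf]
  simp only [hgE]
  refine int_diff (meas_gE _ _ Λ f mf) (fun ω => ?_) (fun ω ω' => ?_)
  · have := (sp (cpl β m s J) h).unit Λ ω f hf
    rw [abs_of_nonneg this.1]; exact this.2
  · exact hD A Λ f hf hfA n ω ω' fun a ha y hy _ => hnot a ha y hy

end Pool.Agent.Helper79K9.EA
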