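import Pool.Agent.Helper79K9.EA.Main

/-!
# Summability of the covariances, and the model of the question
-/

set_option autoImplicit false

open MeasureTheory Filter
open scoped ENNReal Topology

namespace Pool.Agent.Helper79K9.EA

open Pool.H47EA hiding ham Zp gE IsGibbs Forget meas_ham meas_gE gE_indicator_mem ham_eq_sum ham_glue

variable {d : ℕ}

theorem sum_exp_le (hd : 1 ≤ d) (x : Site d) (S : Finset (Site d)) :
    ∑ y ∈ S, Real.exp (-((dist1 x y : ℝ) / (8 * d))) ≤ (18 * (d : ℝ)) ^ d := by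
  have hd0 : (0 : ℝ) < d := by exact_mod_cast hd
  have hd1 : (1 : ℝ) ≤ d := by exact_mod_cast hd
  set q : ℝ := Real.exp (-(1 / (8 * d))) with hq
  have hq0 : 0 < q := Real.exp_pos _
  have hq1 : q ≤ 8 * d / (8 * d + 1) := by
    rw [hq, Real.exp_neg]
    have h1 : 1 + 1 / (8 * (d : ℝ)) ≤ Real.exp (1 / (8 * d)) := by
      have := Real.add_one_le_exp (1 / (8 * (d : ℝ)))
      linarith
    have h2 : (Real.exp (1 / (8 * (d : ℝ))))⁻¹ ≤ (1 + 1 / (8 * (d : ℝ)))⁻¹ :=
      inv_anti₀ (by positivity) h1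
    refine h2.trans (le_of_eq ?_)
    field_simp
  have hlt : 8 * (d : ℝ) / (8 * d + 1) < 1 := by
    rw [div_lt_one (by positivity)]
    linarith
  have hq2 : q < 1 := hq1.trans_lt hlt
  have hpow : ∀ y, Real.exp (-((dist1 x y : ℝ) / (8 * d))) = q ^ dist1 x y := by
    intro y
    rw [hq, ← Real.exp_nat_mul]
    congr 1
    ring
  set M := S.sup (fun y => dist1 x y) with hM
  have hsub : S ⊆ Finset.Icc (fun i => x i - (M : ℤ)) (fun i => x i + (M : ℤ)) := by
    intro y hy
    have h1 : dist1 x y ≤ M := Finset.le_sup (f := fun y => dist1 x y) hy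
    have h2 : ∀ i, (x i - y i).natAbs ≤ M := fun i => (InfAux.coord_le x y i).trans h1
    rw [Finset.mem_Icc]
    constructor
    · intro i
      have := h2 i
      show x i - (M : ℤ) ≤ y i
      omega
    · intro i
      have := h2 i
      show y i ≤ x i + (M : ℤ)
      omega
  calc ∑ y ∈ S, Real.exp (-((dist1 x y : ℝ) / (8 * d))) = ∑ y ∈ S, q ^ dist1 x y :=
        Finset.sum_congr rfl fun y _ => hpow y
    _ ≤ ∑ y ∈ Finset.Icc (fun i => x i - (M : ℤ)) (fun i => x i + (M : ℤ)), q ^ dist1 x y :=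
        Finset.sum_le_sum_of_subset_of_nonneg hsub fun y _ _ => by positivity
    _ = ∏ i, ∑ z ∈ Finset.Icc (x i - (M : ℤ)) (x i + (M : ℤ)), q ^ (x i - z).natAbs := by
        rw [Finset.prod_univ_sum]
        apply Finset.sum_congr rfl
        intro y _
        rw [dist1, Finset.prod_pow_eq_pow_sum]
    _ ≤ ∏ _i : Fin d, (18 * (d : ℝ)) := by
        apply Finset.prod_le_prod
        · intro i _
          exact Finset.sum_nonneg fun z _ => by positivity
        · intro i _
          refine (BALL_one_le (x i) q hq0 hq2 M).trans ?_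
          rw [div_le_iff₀ (by linarith)]
          have h3 : (1 : ℝ) / (8 * d + 1) ≤ 1 - q := by
            have : 8 * (d : ℝ) / (8 * d + 1) = 1 - 1 / (8 * d + 1) := by
              field_simp
              ring
            linarith
          have h4 : 2 ≤ 18 * (d : ℝ) * (1 / (8 * d + 1)) := by
            rw [mul_one_div, le_div_iff₀ (by positivity)]
            linarith
          have h5 : 18 * (d : ℝ) * (1 / (8 * d + 1)) ≤ 18 * d * (1 - q) :=
            mul_le_mul_of_nonneg_left h3 (by positivity)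
          linarith
    _ = (18 * (d : ℝ)) ^ d := by
        rw [Finset.prod_const, Finset.card_univ, Fintype.card_fin]

theorem susc (hd : 1 ≤ d) (E : ((Site d → Bool) → ℝ) → ℝ) (K : Site d → ℝ) (hK : ∀ x, 0 ≤ K x)
    (hE : Mixes E K) (x : Site d) (S : Finset (Site d)) :
    ∑ y ∈ S, |E (fun σ => ind x σ * ind y σ) - E (ind x) * E (ind y)| ≤
      (18 * (d : ℝ)) ^ d * K x := by
  have hu : ∀ y : Site d, Unit01 (ind y) := fun y σ => by
    unfold ind; split_ifs <;> norm_num
  have hl : ∀ y : Site d, LocalOn {y} (ind y) := fun y σ σ' h => by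
    unfold ind
    rw [h y (Finset.mem_singleton_self y)]
  have h1 : ∀ y ∈ S, |E (fun σ => ind x σ * ind y σ) - E (ind x) * E (ind y)| ≤
      K x * Real.exp (-((dist1 x y : ℝ) / (8 * d))) := by
    intro y _
    have := hE {x} {y} (ind x) (ind y) (hu x) (hl x) (hu y) (hl y) (dist1 x y) (by simp)
    simpa using this
  calc ∑ y ∈ S, |E (fun σ => ind x σ * ind y σ) - E (ind x) * E (ind y)| ≤
        ∑ y ∈ S, K x * Real.exp (-((dist1 x y : ℝ) / (8 * d))) := Finset.sum_le_sum h1
    _ = K x * ∑ y ∈ S, Real.exp (-((dist1 x y : ℝ) / (8 * d))) := by rw [Finset.mul_sum]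
    _ ≤ K x * (18 * (d : ℝ)) ^ d := mul_le_mul_of_nonneg_left (sum_exp_le hd x S) (hK x)
    _ = _ := mul_comm _ _

/-- for magnitudes and weights one and field zero this is the model of the question -/
theorem gE_eq_EA (β : ℝ) (J : Coupling d) (Λ : Finset (Site d)) (ω : Site d → Bool)
    (f : (Site d → Bool) → ℝ) :
    gE (cpl β (fun _ => 1) (fun _ => 1) J) (fun _ => 0) Λ ω f = Pool.H47EA.gE β J Λ ω f := by
  have h1 : ∀ σ : Site d → Bool, ham (cpl β (fun _ => 1) (fun _ => 1) J) (fun _ => 0) Λ σ =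
      β * Pool.H47EA.ham J Λ σ := by
    intro σ
    unfold ham Pool.H47EA.ham
    rw [Finset.mul_sum]
    simp only [zero_mul, Finset.sum_const_zero, add_zero]
    refine Finset.sum_congr rfl fun e _ => ?_
    induction e using Sym2.ind with
    | _ x y =>
      show β * 1 * Jc J x y * 1 * 1 * (sg (σ x) * sg (σ y)) =
        β * (Jc J x y * sg (σ x) * sg (σ y))
      ring
  unfold gE Pool.H47EA.gE Zp Pool.H47EA.Zp
  simp only [h1]

theorem isGibbs_iff (β : ℝ) (J : Coupling d) (π : Measure (Site d → Bool)) :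
    IsGibbs (cpl β (fun _ => 1) (fun _ => 1) J) (fun _ => 0) π ↔ Pool.H47EA.IsGibbs β J π := by
  unfold IsGibbs Pool.H47EA.IsGibbs
  simp only [gE_eq_EA]

end Pool.Agent.Helper79K9.EA
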